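import Mathlib
import Pool.Agent.Helper27.Har.P_global_ode

/-!
# Steering a bicycle along a convex curve: comparison arguments

`θ' = λ v sin (φ - θ)` where `v > 0` is the speed of the front wheel and `φ` its tangent angle.
-/

set_option autoImplicit false

open Set Filter Topology Real

namespace Pool.Agent.L0h97.Bike

/-- Data of a closed convex curve `(X, Y)`, parametrized counterclockwise: speed `v`, tangent angle
`φ`, derivative `k` of the tangent angle, bound `V` of the speed. -/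
structure Trk (T : ℝ) (X Y v φ k : ℝ → ℝ) (V : ℝ) : Prop where
  T_pos : 0 < T
  hX : ∀ t, HasDerivAt X (v t * cos (φ t)) t
  hY : ∀ t, HasDerivAt Y (v t * sin (φ t)) t
  hφ : ∀ t, HasDerivAt φ (k t) t
  k_nonneg : ∀ t, 0 ≤ k t
  k_cont : Continuous k
  v_cont : Continuous v
  v_pos : ∀ t, 0 < v t
  v_le : ∀ t, v t ≤ V
  φ_mono : StrictMono φ
  φ_per : ∀ t, φ (t + T) = φ t + 2 * π
  X_per : ∀ t, X (t + T) = X t
  Y_per : ∀ t, Y (t + T) = Y t
  v_per : ∀ t, v (t + T) = v t
  cvx : ∀ t s, t < s → s < t + T →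
    0 < cos (φ t) * (Y s - Y t) - sin (φ t) * (X s - X t)

/-- A solution of the steering equation. -/
def Sol (v φ : ℝ → ℝ) (l : ℝ) (θ : ℝ → ℝ) : Prop :=
  ∀ t, HasDerivAt θ (l * v t * sin (φ t - θ t)) t

/-- Comparison principle. -/
lemma comparison {d d' : ℝ → ℝ} {L a b : ℝ} (hab : a ≤ b) (hcont : ContinuousOn d (Icc a b))
    (hd : ∀ t ∈ Ioo a b, HasDerivAt d (d' t) t) (hL : ∀ t ∈ Ioo a b, -(L * |d t|) ≤ d' t) :
    (0 ≤ d a → 0 ≤ d b) ∧ (0 < d a → 0 < d b) := by
  have h1 : ∀ c ∈ Icc a b, ∀ e ∈ Icc a b, c ≤ e → (∀ t ∈ Ioo c e, d t ≤ 0) →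
      d c * exp (-(L * c)) ≤ d e * exp (-(L * e)) := by
    intro c hc e he hce hneg
    have hder : ∀ t ∈ Ioo c e, HasDerivAt (fun t => d t * exp (-(L * t)))
        (d' t * exp (-(L * t)) + d t * (exp (-(L * t)) * (-L))) t := by
      intro t ht
      have h2 : HasDerivAt (fun t : ℝ => -(L * t)) (-L) t := by
        simpa using ((hasDerivAt_id' t).const_mul L).fun_neg
      exact (hd t ⟨hc.1.trans_lt ht.1, ht.2.trans_le he.2⟩).mul h2.exp
    have hmono : MonotoneOn (fun t => d t * exp (-(L * t))) (Icc c e) := by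
      refine monotoneOn_of_deriv_nonneg (convex_Icc _ _) ?_ ?_ ?_
      · exact (hcont.mono (Icc_subset_Icc hc.1 he.2)).mul (by fun_prop)
      · intro t ht
        rw [interior_Icc] at ht
        exact (hder t ht).differentiableAt.differentiableWithinAt
      · intro t ht
        rw [interior_Icc] at ht
        rw [(hder t ht).deriv]
        have h3 := hL t ⟨hc.1.trans_lt ht.1, ht.2.trans_le he.2⟩
        rw [abs_of_nonpos (hneg t ht)] at h3
        have h4 : 0 < exp (-(L * t)) := exp_pos _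
        nlinarith
    exact hmono (left_mem_Icc.2 hce) (right_mem_Icc.2 hce) hce
  have h2 : ∀ c ∈ Icc a b, ∀ e ∈ Icc a b, c ≤ e → (∀ t ∈ Ioo c e, 0 ≤ d t) →
      d c * exp (L * c) ≤ d e * exp (L * e) := by
    intro c hc e he hce hneg
    have hder : ∀ t ∈ Ioo c e, HasDerivAt (fun t => d t * exp (L * t))
        (d' t * exp (L * t) + d t * (exp (L * t) * L)) t := by
      intro t ht
      have h2 : HasDerivAt (fun t : ℝ => L * t) L t := by
        simpa using (hasDerivAt_id' t).const_mul L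
      exact (hd t ⟨hc.1.trans_lt ht.1, ht.2.trans_le he.2⟩).mul h2.exp
    have hmono : MonotoneOn (fun t => d t * exp (L * t)) (Icc c e) := by
      refine monotoneOn_of_deriv_nonneg (convex_Icc _ _) ?_ ?_ ?_
      · exact (hcont.mono (Icc_subset_Icc hc.1 he.2)).mul (by fun_prop)
      · intro t ht
        rw [interior_Icc] at ht
        exact (hder t ht).differentiableAt.differentiableWithinAt
      · intro t ht
        rw [interior_Icc] at ht
        rw [(hder t ht).deriv]
        have h3 := hL t ⟨hc.1.trans_lt ht.1, ht.2.trans_le he.2⟩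
        rw [abs_of_nonneg (hneg t ht)] at h3
        have h4 : 0 < exp (L * t) := exp_pos _
        nlinarith
    exact hmono (left_mem_Icc.2 hce) (right_mem_Icc.2 hce) hce
  have hA : ∀ c ∈ Icc a b, 0 ≤ d a → 0 ≤ d c := by
    intro c hc ha
    by_contra hcon
    push Not at hcon
    -- the last zero before `c`
    set S : Set ℝ := {t | t ∈ Icc a c ∧ 0 ≤ d t} with hS
    have hSc : IsCompact S := by
      have h3 : IsClosed S := by
        have := (hcont.mono (Icc_subset_Icc le_rfl hc.2)).preimage_isClosed_of_isClosed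
          isClosed_Icc (isClosed_Ici (a := (0 : ℝ)))
        have h4 : S = Icc a c ∩ d ⁻¹' Ici 0 := by
          ext t
          simp [hS]
        rw [h4]
        exact this
      exact isCompact_Icc.of_isClosed_subset h3 fun t ht => ht.1
    have hSne : S.Nonempty := ⟨a, left_mem_Icc.2 hc.1, ha⟩
    obtain ⟨m, hm, hmax⟩ := hSc.exists_isGreatest hSne
    have hmc : m < c := lt_of_le_of_ne hm.1.2 (by rintro rfl; linarith [hm.2])
    have h3 := h1 m ⟨hm.1.1, hm.1.2.trans hc.2⟩ c hc hm.1.2 (by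
      intro t ht
      by_contra hpos
      push Not at hpos
      exact absurd (hmax ⟨⟨hm.1.1.trans ht.1.le, ht.2.le⟩, hpos.le⟩) (not_le.2 ht.1))
    have h4 : 0 ≤ d m * exp (-(L * m)) := mul_nonneg hm.2 (exp_pos _).le
    have h5 : d c * exp (-(L * c)) < 0 := mul_neg_of_neg_of_pos hcon (exp_pos _)
    linarith
  refine ⟨fun ha => hA b (right_mem_Icc.2 hab) ha, fun ha => ?_⟩
  have h3 := h2 a (left_mem_Icc.2 hab) b (right_mem_Icc.2 hab) hab (fun t ht =>
    hA t ⟨ht.1.le, ht.2.le⟩ ha.le)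
  have h4 : 0 < d a * exp (L * a) := mul_pos ha (exp_pos _)
  exact pos_of_mul_pos_left (h4.trans_le h3) (exp_pos _).le

/-- Strict comparison: if `0 ≤ d a` and `d b ≤ 0`, then `d` vanishes in between. -/
lemma comparison_zero {d d' : ℝ → ℝ} {L a b : ℝ} (hcont : ContinuousOn d (Icc a b))
    (hd : ∀ t ∈ Ioo a b, HasDerivAt d (d' t) t)
    (hL : ∀ t ∈ Ioo a b, -(L * |d t|) ≤ d' t) (ha : 0 ≤ d a) (hb : d b ≤ 0) :
    ∀ t ∈ Icc a b, d t = 0 := by
  intro t ht
  have h1 := (comparison ht.1 (hcont.mono (Icc_subset_Icc le_rfl ht.2))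
    (fun s hs => hd s ⟨hs.1, hs.2.trans_le ht.2⟩)
    (fun s hs => hL s ⟨hs.1, hs.2.trans_le ht.2⟩)).1 ha
  by_contra hne
  have h2 : 0 < d t := lt_of_le_of_ne h1 (Ne.symm hne)
  have h3 := (comparison ht.2 (hcont.mono (Icc_subset_Icc ht.1 le_rfl))
    (fun s hs => hd s ⟨ht.1.trans_lt hs.1, hs.2⟩)
    (fun s hs => hL s ⟨ht.1.trans_lt hs.1, hs.2⟩)).2 h2
  linarith

/-- If a function vanishes on `[a, b]`, `a < b`, its derivative vanishes inside. -/
lemma deriv_zero {d : ℝ → ℝ} {a b t c : ℝ} (h : ∀ t ∈ Icc a b, d t = 0) (ht : t ∈ Ioo a b)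
    (hd : HasDerivAt d c t) : c = 0 := by
  have h1 : d =ᶠ[𝓝 t] fun _ => 0 := by
    filter_upwards [Ioo_mem_nhds ht.1 ht.2] with s hs using h s ⟨hs.1.le, hs.2.le⟩
  exact (h1.hasDerivAt_iff.1 hd).unique (hasDerivAt_const t 0)

variable {T : ℝ} {X Y v φ k : ℝ → ℝ} {V : ℝ} {l : ℝ} {θ η : ℝ → ℝ}

lemma Sol.continuous (h : Sol v φ l θ) : Continuous θ :=
  continuous_iff_continuousAt.2 fun t => (h t).continuousAt

lemma Trk.φ_cont (H : Trk T X Y v φ k V) : Continuous φ :=
  continuous_iff_continuousAt.2 fun t => (H.hφ t).continuousAt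

lemma abs_sin_sub_le (x y : ℝ) : |sin x - sin y| ≤ |x - y| := by
  have h := Real.lipschitzWith_sin.dist_le_mul x y
  simpa [Real.dist_eq] using h

lemma Trk.abs_le (H : Trk T X Y v φ k V) (hl : 0 ≤ l) {t x y : ℝ} (h : |x| ≤ |y|) :
    |l * v t * x| ≤ l * V * |y| := by
  rw [abs_mul, abs_mul, abs_of_nonneg hl, abs_of_pos (H.v_pos t)]
  have h1 := H.v_le t
  have h2 := H.v_pos t
  exact mul_le_mul (mul_le_mul_of_nonneg_left h1 hl) h (abs_nonneg _)
    (mul_nonneg hl (h2.le.trans h1))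

/-- `φ - θ` crosses the multiples of `π` only upwards. -/
lemma Trk.up (H : Trk T X Y v φ k V) (hl : 0 ≤ l) (hθ : Sol v φ l θ) (j : ℤ) {a b : ℝ}
    (hab : a < b) (h : j * π ≤ φ a - θ a) : j * π < φ b - θ b := by
  set d : ℝ → ℝ := fun t => φ t - θ t - j * π with hd
  have hder : ∀ t, HasDerivAt d (k t - l * v t * sin (φ t - θ t)) t := fun t =>
    ((H.hφ t).sub (hθ t)).sub_const _
  have hsin : ∀ t, |sin (φ t - θ t)| ≤ |d t| := by
    intro t
    have h1 : |sin (φ t - θ t)| = |sin (d t)| := by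
      rw [hd]
      simp only
      rw [Real.sin_sub_int_mul_pi, abs_mul, abs_zpow, abs_neg, abs_one, one_zpow, one_mul]
    rw [h1]
    exact Real.abs_sin_le_abs
  have hcont : Continuous d := continuous_iff_continuousAt.2 fun t => (hder t).continuousAt
  have hL : ∀ t, -(l * V * |d t|) ≤ k t - l * v t * sin (φ t - θ t) := by
    intro t
    have h1 := H.abs_le hl (t := t) (hsin t)
    have h2 := le_abs_self (l * v t * sin (φ t - θ t))
    have h3 := H.k_nonneg t
    linarith
  by_contra hcon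
  push Not at hcon
  have hz := comparison_zero (L := l * V) hcont.continuousOn (fun t (_ : t ∈ Ioo a b) => hder t)
    (fun t _ => hL t) (by rw [hd]; simp only; linarith) (by rw [hd]; simp only; linarith)
  have hk : ∀ t ∈ Ioo a b, k t = 0 := by
    intro t ht
    have h1 := deriv_zero hz ht (hder t)
    have h2 : sin (φ t - θ t) = 0 := by
      have := hsin t
      rw [hz t ⟨ht.1.le, ht.2.le⟩, abs_zero] at this
      exact abs_nonpos_iff.1 this
    rw [h2, mul_zero, sub_zero] at h1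
    exact h1
  have hmono : AntitoneOn φ (Icc a b) := by
    refine antitoneOn_of_deriv_nonpos (convex_Icc _ _) H.φ_cont.continuousOn
      (fun t _ => (H.hφ t).differentiableAt.differentiableWithinAt) ?_
    intro t ht
    rw [interior_Icc] at ht
    rw [(H.hφ t).deriv, hk t ht]
  have h1 := hmono (left_mem_Icc.2 hab.le) (right_mem_Icc.2 hab.le) hab.le
  have h2 := H.φ_mono hab
  linarith

/-- Uniqueness of solutions. -/
lemma Trk.unique (H : Trk T X Y v φ k V) (hθ : Sol v φ l θ) (hη : Sol v φ l η) {a : ℝ}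
    (h : θ a = η a) : θ = η := by
  have hV : 0 ≤ V := (H.v_pos 0).le.trans (H.v_le 0)
  refine ODE_solution_unique_univ (v := fun t x => l * v t * sin (φ t - x)) (s := fun _ => univ)
    (K := ⟨|l| * V, by positivity⟩) (t₀ := a) (fun t => ?_) (fun t => ⟨hθ t, trivial⟩)
    (fun t => ⟨hη t, trivial⟩) h
  refine LipschitzWith.lipschitzOnWith (LipschitzWith.of_dist_le_mul fun x y => ?_)
  rw [Real.dist_eq, Real.dist_eq, ← mul_sub, abs_mul, abs_mul, abs_of_pos (H.v_pos t)]
  have h1 := abs_sin_sub_le (φ t - x) (φ t - y)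
  have h2 : φ t - x - (φ t - y) = y - x := by ring
  rw [h2, abs_sub_comm y x] at h1
  have h3 := H.v_le t
  have h4 := H.v_pos t
  change |l| * v t * |sin (φ t - x) - sin (φ t - y)| ≤ |l| * V * |x - y|
  exact mul_le_mul (mul_le_mul_of_nonneg_left h3 (abs_nonneg l)) h1 (abs_nonneg _)
    (mul_nonneg (abs_nonneg _) hV)

/-- Existence of solutions. -/
lemma Trk.exists_sol (H : Trk T X Y v φ k V) (l x : ℝ) : ∃ θ, Sol v φ l θ ∧ θ 0 = x := by
  have hV : 0 ≤ V := (H.v_pos 0).le.trans (H.v_le 0)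
  obtain ⟨θ, h0, h1⟩ := Haraux.global_ode (fun t x => l * v t * sin (φ t - x))
    ⟨|l| * V, by positivity⟩ (fun t => by
      refine LipschitzWith.of_dist_le_mul fun x y => ?_
      rw [Real.dist_eq, Real.dist_eq, ← mul_sub, abs_mul, abs_mul, abs_of_pos (H.v_pos t)]
      have h1 := abs_sin_sub_le (φ t - x) (φ t - y)
      have h2 : φ t - x - (φ t - y) = y - x := by ring
      rw [h2, abs_sub_comm y x] at h1
      have h3 := H.v_le t
      have h4 := H.v_pos t
      change |l| * v t * |sin (φ t - x) - sin (φ t - y)| ≤ |l| * V * |x - y|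
      exact mul_le_mul (mul_le_mul_of_nonneg_left h3 (abs_nonneg l)) h1 (abs_nonneg _)
        (mul_nonneg (abs_nonneg _) hV)) (by
      have h2 := H.v_cont
      have h3 := H.φ_cont
      have : Function.uncurry (fun t x => l * v t * sin (φ t - x)) =
        fun z : ℝ × ℝ => l * v z.1 * sin (φ z.1 - z.2) := rfl
      rw [this]
      fun_prop) x
  exact ⟨θ, h1, h0⟩

/-- Translates by multiples of `2π` of solutions are solutions. -/
lemma Sol.add_int (hθ : Sol v φ l θ) (m : ℤ) : Sol v φ l (fun t => θ t + m * (2 * π)) := by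
  intro t
  have h1 := (hθ t).add_const (m * (2 * π))
  have h2 : sin (φ t - (θ t + m * (2 * π))) = sin (φ t - θ t) := by
    rw [← sub_sub, Real.sin_sub_int_mul_two_pi]
  simp only [h2]
  exact h1

/-- A solution that changes by a multiple of `2π` over one period extends periodically. -/
lemma Trk.periodic (H : Trk T X Y v φ k V) (hθ : Sol v φ l θ) {m : ℤ} {a : ℝ}
    (h : θ (a + T) = θ a + m * (2 * π)) : ∀ t, θ (t + T) = θ t + m * (2 * π) := by
  have h1 : Sol v φ l (fun t => θ (t + T)) := by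
    intro t
    have h2 := (hθ (t + T)).comp_add_const t T
    rw [H.v_per, H.φ_per] at h2
    have h3 : sin (φ t + 2 * π - θ (t + T)) = sin (φ t - θ (t + T)) := by
      rw [show φ t + 2 * π - θ (t + T) = φ t - θ (t + T) + 2 * π by ring, Real.sin_add_two_pi]
    rw [h3] at h2
    exact h2
  have h2 := H.unique h1 (hθ.add_int m) (a := a) h
  intro t
  exact congrFun h2 t

/-- The inverse of a strictly decreasing continuous function on a compact interval. -/
lemma inv_branch {f : ℝ → ℝ} {p q : ℝ} (hpq : p ≤ q) (hc : Continuous f)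
    (ha : StrictAntiOn f (Icc p q)) : ∃ b : ℝ → ℝ, Continuous b ∧
      ∀ y ∈ Icc (f q) (f p), b y ∈ Icc p q ∧ f (b y) = y := by
  have hqp : f q ≤ f p := ha.antitoneOn (left_mem_Icc.2 hpq) (right_mem_Icc.2 hpq) hpq
  have himg : f '' Icc p q = Icc (f q) (f p) := by
    apply Subset.antisymm
    · rintro _ ⟨x, hx, rfl⟩
      exact ⟨ha.antitoneOn hx (right_mem_Icc.2 hpq) hx.2,
        ha.antitoneOn (left_mem_Icc.2 hpq) hx hx.1⟩
    · exact intermediate_value_Icc' hpq hc.continuousOn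
  have hmaps : ∀ x ∈ Icc p q, f x ∈ Icc (f q) (f p) := fun x hx => by
    rw [← himg]; exact ⟨x, hx, rfl⟩
  set F : Icc p q → Icc (f q) (f p) := fun x => ⟨f x, hmaps x x.2⟩ with hF
  have hFc : Continuous F := by
    rw [hF]
    exact Continuous.subtype_mk (hc.comp continuous_subtype_val) _
  have hFb : Function.Bijective F := by
    constructor
    · intro x y hxy
      have : f x = f y := congrArg Subtype.val hxy
      exact Subtype.ext (ha.injOn x.2 y.2 this)
    · rintro ⟨y, hy⟩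
      rw [← himg] at hy
      obtain ⟨x, hx, rfl⟩ := hy
      exact ⟨⟨x, hx⟩, rfl⟩
  let e := Continuous.homeoOfEquivCompactToT2 (f := Equiv.ofBijective F hFb) hFc
  refine ⟨fun y => (e.symm (projIcc (f q) (f p) hqp y) : ℝ), by fun_prop, ?_⟩
  intro y hy
  simp only []
  rw [projIcc_of_mem hqp hy]
  refine ⟨(e.symm ⟨y, hy⟩).2, ?_⟩
  have h1 : F (e.symm ⟨y, hy⟩) = ⟨y, hy⟩ := e.apply_symm_apply ⟨y, hy⟩
  exact congrArg Subtype.val h1

/-- **Key lemma.** A solution that starts in the direction of the tangent turns counterclockwise in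
total: `θ a < θ (a + T)`. -/
lemma Trk.key (H : Trk T X Y v φ k V) (hl : 0 < l) (hθ : Sol v φ l θ) {a : ℝ}
    (h0 : φ a = θ a) : θ a < θ (a + T) := by
  by_contra hcon
  push Not at hcon
  have hT := H.T_pos
  have hπ := Real.pi_pos
  have hcδ : Continuous fun t => φ t - θ t := H.φ_cont.sub hθ.continuous
  -- the times `t₁`, `t₂` at which `φ - θ` equals `π`, `2π`
  have hend : 2 * π ≤ φ (a + T) - θ (a + T) := by
    rw [H.φ_per]; linarith
  have hivt : ∀ y, 0 ≤ y → y ≤ 2 * π → ∃ t ∈ Icc a (a + T), φ t - θ t = y := by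
    intro y hy0 hy1
    exact intermediate_value_Icc (f := fun t => φ t - θ t) (by linarith : a ≤ a + T)
      hcδ.continuousOn ⟨by linarith, by linarith⟩
  obtain ⟨t₁, ht₁, hδ₁⟩ := hivt π hπ.le (by linarith)
  obtain ⟨t₂, ht₂, hδ₂⟩ := hivt (2 * π) (by positivity) le_rfl
  have ha1 : a < t₁ := lt_of_le_of_ne ht₁.1 (by rintro rfl; linarith)
  have h12 : t₁ < t₂ := by
    by_contra hle
    push Not at hle
    rcases hle.lt_or_eq with hlt | heq
    · have := H.up hl.le hθ 2 hlt (by push_cast; linarith)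
      push_cast at this
      linarith
    · rw [heq] at hδ₂
      linarith
  -- signs of `sin (φ - θ)`
  have hδpos : ∀ t, a < t → 0 < φ t - θ t := by
    intro t ht
    have := H.up hl.le hθ 0 ht (by push_cast; linarith)
    simpa using this
  have hδlt1 : ∀ t, t < t₁ → φ t - θ t < π := by
    intro t ht
    by_contra hle
    push Not at hle
    have := H.up hl.le hθ 1 ht (by push_cast; linarith)
    push_cast at this
    linarith
  have hδgt1 : ∀ t, t₁ < t → π < φ t - θ t := by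
    intro t ht
    have := H.up hl.le hθ 1 ht (by push_cast; linarith)
    push_cast at this
    linarith
  have hδlt2 : ∀ t, t < t₂ → φ t - θ t < 2 * π := by
    intro t ht
    by_contra hle
    push Not at hle
    have := H.up hl.le hθ 2 ht (by push_cast; linarith)
    push_cast at this
    linarith
  have hs1 : ∀ t ∈ Ioo a t₁, 0 < sin (φ t - θ t) := fun t ht =>
    sin_pos_of_pos_of_lt_pi (hδpos t ht.1) (hδlt1 t ht.2)
  have hs2 : ∀ t ∈ Ioo t₁ t₂, sin (φ t - θ t) < 0 := by
    intro t ht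
    have h1 := hδgt1 t ht.1
    have h2 := hδlt2 t ht.2
    have h3 : sin (φ t - θ t) = sin (φ t - θ t - 2 * π) := by rw [Real.sin_sub_two_pi]
    rw [h3]
    exact sin_neg_of_neg_of_neg_pi_lt (by linarith) (by linarith)
  -- monotonicity of `θ`
  have hm1 : StrictMonoOn θ (Icc a t₁) := by
    refine strictMonoOn_of_deriv_pos (convex_Icc _ _) hθ.continuous.continuousOn ?_
    intro t ht
    rw [interior_Icc] at ht
    rw [(hθ t).deriv]
    exact mul_pos (mul_pos hl (H.v_pos t)) (hs1 t ht)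
  have hm2 : StrictAntiOn θ (Icc t₁ t₂) := by
    refine strictAntiOn_of_deriv_neg (convex_Icc _ _) hθ.continuous.continuousOn ?_
    intro t ht
    rw [interior_Icc] at ht
    rw [(hθ t).deriv]
    exact mul_neg_of_pos_of_neg (mul_pos hl (H.v_pos t)) (hs2 t ht)
  obtain ⟨b, hbc, hb⟩ := inv_branch h12.le hθ.continuous hm2
  have hθ2 : θ t₂ ≤ θ a := by
    have h1 : φ t₂ ≤ φ (a + T) := H.φ_mono.monotone ht₂.2
    rw [H.φ_per] at h1
    linarith
  have hrange : ∀ t ∈ Icc a t₁, θ t ∈ Icc (θ t₂) (θ t₁) := fun t ht =>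
    ⟨hθ2.trans (hm1.monotoneOn (left_mem_Icc.2 ha1.le) ht ht.1),
      hm1.monotoneOn ht (right_mem_Icc.2 ha1.le) ht.2⟩
  -- the function `Z`
  set g : ℝ → ℝ := fun t => -X t * sin (θ t) + Y t * cos (θ t) with hg
  set P : ℝ → ℝ := fun t => X t * cos (θ t) + Y t * sin (θ t) with hP
  have hgd : ∀ t, HasDerivAt g (l * v t * sin (φ t - θ t) * (1 / l - P t)) t := by
    intro t
    have h1 := ((H.hX t).fun_neg.fun_mul (hθ t).sin).fun_add ((H.hY t).fun_mul (hθ t).cos)
    refine h1.congr_deriv ?_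
    simp only [hP, Real.sin_sub]
    field_simp
    ring
  have hgc : Continuous g := continuous_iff_continuousAt.2 fun t => (hgd t).continuousAt
  set Z : ℝ → ℝ := fun t => g (b (θ t)) - g t with hZ
  have hZc : Continuous Z := (hgc.comp (hbc.comp hθ.continuous)).sub hgc
  have hZd : ∀ t ∈ Ioo a t₁, HasDerivAt Z
      (-(l * v t * sin (φ t - θ t)) * (P (b (θ t)) - P t)) t := by
    intro t ht
    have hy1 : θ t < θ t₁ := hm1 ⟨ht.1.le, ht.2.le⟩ (right_mem_Icc.2 ha1.le) ht.2
    have hy2 : θ t₂ < θ t := hθ2.trans_lt (hm1 (left_mem_Icc.2 ha1.le) ⟨ht.1.le, ht.2.le⟩ ht.1)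
    obtain ⟨hbm, hbe⟩ := hb (θ t) ⟨hy2.le, hy1.le⟩
    have hbt : b (θ t) ∈ Ioo t₁ t₂ := by
      refine ⟨lt_of_le_of_ne hbm.1 ?_, lt_of_le_of_ne hbm.2 ?_⟩
      · intro h; rw [← h] at hbe; exact absurd hbe hy1.ne'
      · intro h; rw [h] at hbe; exact absurd hbe hy2.ne
    have hne : l * v (b (θ t)) * sin (φ (b (θ t)) - θ (b (θ t))) ≠ 0 :=
      (mul_neg_of_pos_of_neg (mul_pos hl (H.v_pos _)) (hs2 _ hbt)).ne
    have hbd : HasDerivAt b (l * v (b (θ t)) * sin (φ (b (θ t)) - θ (b (θ t))))⁻¹ (θ t) := by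
      refine HasDerivAt.of_local_left_inverse hbc.continuousAt (hθ (b (θ t))) hne ?_
      filter_upwards [Ioo_mem_nhds hy2 hy1] with z hz
      exact (hb z ⟨hz.1.le, hz.2.le⟩).2
    have h1 := ((hgd (b (θ t))).comp t (hbd.comp t (hθ t))).fun_sub (hgd t)
    refine h1.congr_deriv ?_
    set S := l * v (b (θ t)) * sin (φ (b (θ t)) - θ (b (θ t))) with hS
    have h2 : S * S⁻¹ = 1 := mul_inv_cancel₀ hne
    linear_combination (l * v t * sin (φ t - θ t) * (1 / l - P (b (θ t)))) * h2
  have hconv : ∀ t ∈ Ioo a t₁, sin (φ t - θ t) * (P (b (θ t)) - P t) < cos (φ t - θ t) * Z t := by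
    intro t ht
    obtain ⟨hbm, hbe⟩ := hb (θ t) (hrange t ⟨ht.1.le, ht.2.le⟩)
    have h1 := H.cvx t (b (θ t)) (ht.2.trans_le hbm.1) (by linarith [hbm.2, ht₂.2, ht.1])
    have h2 : φ t = θ t + (φ t - θ t) := by ring
    have h3 : cos (φ t) = cos (θ t) * cos (φ t - θ t) - sin (θ t) * sin (φ t - θ t) := by
      conv_lhs => rw [h2]
      rw [Real.cos_add]
    have h4 : sin (φ t) = sin (θ t) * cos (φ t - θ t) + cos (θ t) * sin (φ t - θ t) := by
      conv_lhs => rw [h2]
      rw [Real.sin_add]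
    rw [h3, h4] at h1
    simp only [hZ, hg, hP, hbe]
    nlinarith
  have hZ1 : Z t₁ = 0 := by
    have h1 := hb (θ t₁) (hrange t₁ (right_mem_Icc.2 ha1.le))
    have h2 : b (θ t₁) = t₁ := hm2.injOn h1.1 (left_mem_Icc.2 h12.le) h1.2
    simp [hZ, h2]
  have hZa : 0 ≤ Z a := by
    obtain ⟨hbm, hbe⟩ := hb (θ a) (hrange a (left_mem_Icc.2 ha1.le))
    have h1 : Z a = cos (φ a) * (Y (b (θ a)) - Y a) - sin (φ a) * (X (b (θ a)) - X a) := by
      simp only [hZ, hg, hbe, h0]
      ring
    rcases (hbm.2.trans ht₂.2).lt_or_eq with hlt | heq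
    · rw [h1]
      exact (H.cvx a _ (ha1.trans_le hbm.1) hlt).le
    · rw [h1, heq, H.X_per, H.Y_per]
      simp
  have hlv : ∀ t, 0 < l * v t := fun t => mul_pos hl (H.v_pos t)
  have hLb : ∀ t ∈ Ioo a t₁, -(l * V * |Z t|) ≤
      -(l * v t * sin (φ t - θ t)) * (P (b (θ t)) - P t) := by
    intro t ht
    have h1 := mul_lt_mul_of_pos_left (hconv t ht) (hlv t)
    have h2 : |cos (φ t - θ t) * Z t| ≤ |Z t| := by
      rw [abs_mul]
      exact mul_le_of_le_one_left (abs_nonneg _) (Real.abs_cos_le_one _)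
    have h3 := H.abs_le hl.le (t := t) h2
    have h4 := le_abs_self (l * v t * (cos (φ t - θ t) * Z t))
    linarith
  have hzero := comparison_zero hZc.continuousOn hZd hLb hZa hZ1.le
  obtain ⟨t, ht⟩ : (Ioo a t₁).Nonempty := nonempty_Ioo.2 ha1
  have h1 := deriv_zero hzero ht (hZd t ht)
  have h2 := mul_lt_mul_of_pos_left (hconv t ht) (hlv t)
  rw [hzero t ⟨ht.1.le, ht.2.le⟩, mul_zero, mul_zero] at h2
  linarith

end Pool.Agent.L0h97.Bike
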