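import Mathlib
import Pool.Agent.L0h97.Bike.Core

/-!
# Steering a bicycle along a convex curve: the two regimes
-/

set_option autoImplicit false

open Set Filter Topology Real

namespace Pool.Agent.L0h97.Bike

variable {T : ℝ} {X Y v φ k : ℝ → ℝ} {V : ℝ} {l : ℝ} {θ η : ℝ → ℝ}

lemma Trk.lip (H : Trk T X Y v φ k V) (l : ℝ) (t x y : ℝ) :
    |l * v t * sin (φ t - x) - l * v t * sin (φ t - y)| ≤ |l| * V * |x - y| := by
  have hV : 0 ≤ V := (H.v_pos 0).le.trans (H.v_le 0)
  rw [← mul_sub, abs_mul, abs_mul, abs_of_pos (H.v_pos t)]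
  have h1 := abs_sin_sub_le (φ t - x) (φ t - y)
  have h2 : φ t - x - (φ t - y) = y - x := by ring
  rw [h2, abs_sub_comm y x] at h1
  have h3 := H.v_le t
  have h4 := H.v_pos t
  exact mul_le_mul (mul_le_mul_of_nonneg_left h3 (abs_nonneg l)) h1 (abs_nonneg _)
    (mul_nonneg (abs_nonneg _) hV)

/-- Continuous dependence on the initial value. -/
lemma Trk.gronwall (H : Trk T X Y v φ k V) (hθ : Sol v φ l θ) (hη : Sol v φ l η) :
    |θ T - η T| ≤ |θ 0 - η 0| * exp (|l| * V * T) := by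
  have hV : 0 ≤ V := (H.v_pos 0).le.trans (H.v_le 0)
  have h := dist_le_of_trajectories_ODE (v := fun t x => l * v t * sin (φ t - x))
    (K := ⟨|l| * V, by positivity⟩) (f := θ) (g := η) (a := 0) (b := T) (δ := |θ 0 - η 0|)
    (fun t => LipschitzWith.of_dist_le_mul fun x y => by
      rw [Real.dist_eq, Real.dist_eq]
      exact H.lip l t x y)
    hθ.continuous.continuousOn (fun t _ => (hθ t).hasDerivWithinAt)
    hη.continuous.continuousOn (fun t _ => (hη t).hasDerivWithinAt)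
    (by rw [Real.dist_eq]) T ⟨H.T_pos.le, le_rfl⟩
  rw [Real.dist_eq, sub_zero] at h
  exact h

/-- The solution with a given initial value. -/
noncomputable def Trk.flow (H : Trk T X Y v φ k V) (l x : ℝ) : ℝ → ℝ :=
  Classical.choose (H.exists_sol l x)

lemma Trk.flow_sol (H : Trk T X Y v φ k V) (l x : ℝ) : Sol v φ l (H.flow l x) :=
  (Classical.choose_spec (H.exists_sol l x)).1

lemma Trk.flow_zero (H : Trk T X Y v φ k V) (l x : ℝ) : H.flow l x 0 = x :=
  (Classical.choose_spec (H.exists_sol l x)).2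

lemma Trk.flow_cont (H : Trk T X Y v φ k V) (l : ℝ) : Continuous fun x => H.flow l x T := by
  have hV : 0 ≤ V := (H.v_pos 0).le.trans (H.v_le 0)
  refine LipschitzWith.continuous (K := ⟨exp (|l| * V * T), (exp_pos _).le⟩)
    (LipschitzWith.of_dist_le_mul fun x y => ?_)
  rw [Real.dist_eq, Real.dist_eq]
  have h := H.gronwall (H.flow_sol l x) (H.flow_sol l y)
  rw [H.flow_zero, H.flow_zero, mul_comm] at h
  exact h

/-- Intermediate values of the total turn. -/
lemma Trk.ivt (H : Trk T X Y v φ k V) (hθ : Sol v φ l θ) (hη : Sol v φ l η) (hle : θ 0 ≤ η 0)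
    {c : ℝ} (hc : c ∈ uIcc (θ T - θ 0) (η T - η 0)) :
    ∃ ζ, Sol v φ l ζ ∧ θ 0 ≤ ζ 0 ∧ ζ 0 ≤ η 0 ∧ ζ T - ζ 0 = c := by
  have hcont : Continuous fun x => H.flow l x T - x := (H.flow_cont l).sub continuous_id
  have h1 : H.flow l (θ 0) = θ := H.unique (H.flow_sol l _) hθ (a := 0) (H.flow_zero l _)
  have h2 : H.flow l (η 0) = η := H.unique (H.flow_sol l _) hη (a := 0) (H.flow_zero l _)
  have h3 := intermediate_value_uIcc (a := θ 0) (b := η 0) hcont.continuousOn
  rw [h1, h2] at h3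
  obtain ⟨x, hx, hxc⟩ := h3 hc
  rw [uIcc_of_le hle] at hx
  refine ⟨H.flow l x, H.flow_sol l x, ?_, ?_, ?_⟩
  · rw [H.flow_zero]; exact hx.1
  · rw [H.flow_zero]; exact hx.2
  · rw [H.flow_zero]; exact hxc

/-- Without ordering of the initial values. -/
lemma Trk.ivt' (H : Trk T X Y v φ k V) (hθ : Sol v φ l θ) (hη : Sol v φ l η)
    {c : ℝ} (hc : c ∈ uIcc (θ T - θ 0) (η T - η 0)) :
    ∃ ζ, Sol v φ l ζ ∧ ζ T - ζ 0 = c := by
  rcases le_total (θ 0) (η 0) with h | h
  · obtain ⟨ζ, h1, -, -, h2⟩ := H.ivt hθ hη h hc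
    exact ⟨ζ, h1, h2⟩
  · rw [uIcc_comm] at hc
    obtain ⟨ζ, h1, -, -, h2⟩ := H.ivt hη hθ h hc
    exact ⟨ζ, h1, h2⟩

/-- Every solution turns counterclockwise in total. -/
lemma Trk.turn_pos (H : Trk T X Y v φ k V) (hl : 0 < l) (hθ : Sol v φ l θ) : θ 0 < θ T := by
  by_contra hcon
  push Not at hcon
  have hT := H.T_pos
  have hπ := Real.pi_pos
  have hη := H.flow_sol l (φ 0)
  have hη0 := H.flow_zero l (φ 0)
  have hkey := H.key hl hη (a := 0) hη0.symm
  rw [zero_add] at hkey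
  obtain ⟨ζ, hζ, hζ0⟩ := H.ivt' hθ hη (c := 0) (by
    rw [mem_uIcc]; left; constructor <;> linarith)
  have hper := H.periodic (m := 0) hζ (a := 0) (by rw [zero_add]; push_cast; linarith)
  -- `φ - ζ` takes a value in `2 π ℤ`
  have hcδ : Continuous fun t => φ t - ζ t := H.φ_cont.sub hζ.continuous
  obtain ⟨m, hm⟩ : ∃ m : ℤ, φ 0 - ζ 0 ≤ m * (2 * π) ∧ m * (2 * π) ≤ φ 0 - ζ 0 + 2 * π := by
    refine ⟨⌈(φ 0 - ζ 0) / (2 * π)⌉, ?_, ?_⟩
    · have := Int.le_ceil ((φ 0 - ζ 0) / (2 * π))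
      rwa [div_le_iff₀ (by positivity)] at this
    · have := (Int.ceil_lt_add_one ((φ 0 - ζ 0) / (2 * π))).le
      rw [← sub_le_iff_le_add, le_div_iff₀ (by positivity)] at this
      linarith
  have hζT : ζ T = ζ 0 := by linarith
  have hφT : φ T = φ 0 + 2 * π := by simpa using H.φ_per 0
  obtain ⟨a, -, ha⟩ := intermediate_value_Icc (f := fun t => φ t - ζ t) hT.le hcδ.continuousOn
    (show (m : ℝ) * (2 * π) ∈ Icc _ _ from ⟨hm.1, by rw [hφT, hζT]; linarith [hm.2]⟩)
  have hkey2 := H.key hl (hζ.add_int m) (a := a) (by simp only at ha ⊢; linarith)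
  rw [hper a] at hkey2
  push_cast at hkey2
  linarith

/-- A solution that starts in the direction of the tangent turns by less than `2π`. -/
lemma Trk.turn_lt (H : Trk T X Y v φ k V) (hl : 0 ≤ l) (hθ : Sol v φ l θ) (h0 : θ 0 = φ 0) :
    θ T < θ 0 + 2 * π := by
  have h := H.up hl hθ 0 H.T_pos (by push_cast; linarith)
  have hφT : φ T = φ 0 + 2 * π := by simpa using H.φ_per 0
  push_cast at h
  linarith

/-- For a solution with total turn `2π`, the bicycle always turns counterclockwise. -/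
lemma Trk.sin_pos (H : Trk T X Y v φ k V) (hl : 0 < l) (hθ : Sol v φ l θ)
    (h : θ T = θ 0 + 2 * π) : ∀ t, 0 < sin (φ t - θ t) := by
  have hT := H.T_pos
  have hπ := Real.pi_pos
  have hper := H.periodic (m := 1) hθ (a := 0) (by rw [zero_add]; push_cast; linarith)
  have hne : ∀ t, sin (φ t - θ t) ≠ 0 := by
    intro t ht
    obtain ⟨j, hj⟩ := Real.sin_eq_zero_iff.1 ht
    have h1 := H.up hl.le hθ j (a := t) (b := t + T) (by linarith) hj.le
    rw [hper t, H.φ_per] at h1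
    push_cast at h1
    linarith
  have hcs : Continuous fun t => sin (φ t - θ t) :=
    Real.continuous_sin.comp (H.φ_cont.sub hθ.continuous)
  by_contra hcon
  push Not at hcon
  obtain ⟨t₀, ht₀⟩ := hcon
  have hneg : ∀ t, sin (φ t - θ t) < 0 := by
    intro t
    by_contra hle
    push Not at hle
    have hmem : (0 : ℝ) ∈ uIcc (sin (φ t₀ - θ t₀)) (sin (φ t - θ t)) := by
      rw [mem_uIcc]; left; exact ⟨ht₀, hle⟩
    obtain ⟨s, -, hs⟩ := intermediate_value_uIcc (f := fun t => sin (φ t - θ t))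
      hcs.continuousOn hmem
    exact hne s hs
  have hanti : StrictAnti θ := by
    refine strictAnti_of_deriv_neg ?_
    intro t
    rw [(hθ t).deriv]
    exact mul_neg_of_pos_of_neg (mul_pos hl (H.v_pos t)) (hneg t)
  have := hanti hT
  linarith

/-- Monotonicity in the length. -/
lemma Trk.mono_l (H : Trk T X Y v φ k V) (hl : 0 < l) (hθ : Sol v φ l θ)
    (h : θ 0 + 2 * π ≤ θ T) {l' : ℝ} (hll' : l < l') :
    ∃ η, Sol v φ l' η ∧ η 0 + 2 * π < η T := by
  have hT := H.T_pos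
  have hπ := Real.pi_pos
  have hV : 0 ≤ V := (H.v_pos 0).le.trans (H.v_le 0)
  have hl' : 0 < l' := hl.trans hll'
  -- a solution with total turn exactly `2π`
  have h1 := H.turn_lt hl.le (H.flow_sol l (φ 0)) (H.flow_zero l (φ 0))
  obtain ⟨ζ, hζ, hζ2⟩ := H.ivt' hθ (H.flow_sol l (φ 0)) (c := 2 * π) (by
    rw [mem_uIcc]; right; constructor <;> linarith)
  have hs := H.sin_pos hl hζ (by linarith)
  have hη := H.flow_sol l' (ζ 0)
  have hη0 := H.flow_zero l' (ζ 0)
  refine ⟨_, hη, ?_⟩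
  set η := H.flow l' (ζ 0) with hηdef
  have hder : ∀ t, HasDerivAt (fun t => η t - ζ t)
      (l' * v t * sin (φ t - η t) - l * v t * sin (φ t - ζ t)) t := fun t => (hη t).sub (hζ t)
  have hL : ∀ t, -(l' * V * |η t - ζ t|) ≤
      l' * v t * sin (φ t - η t) - l * v t * sin (φ t - ζ t) := by
    intro t
    have h2 := H.lip l' t (η t) (ζ t)
    rw [abs_of_pos hl'] at h2
    have h3 := (_root_.abs_le.1 h2).1
    have h4 : l * v t * sin (φ t - ζ t) ≤ l' * v t * sin (φ t - ζ t) := by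
      have := mul_pos (H.v_pos t) (hs t)
      nlinarith
    linarith
  have hcont : Continuous fun t => η t - ζ t := hη.continuous.sub hζ.continuous
  by_contra hcon
  push Not at hcon
  have hz := comparison_zero (L := l' * V) (d := fun t => η t - ζ t) hcont.continuousOn
    (fun t (_ : t ∈ Ioo 0 T) => hder t)
    (fun t _ => hL t) (by linarith) (by linarith)
  obtain ⟨t, ht⟩ : (Ioo 0 T).Nonempty := nonempty_Ioo.2 hT
  have h2 := deriv_zero hz ht (hder t)
  have h3 := hz t ⟨ht.1.le, ht.2.le⟩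
  have h4 : η t = ζ t := by linarith
  rw [h4] at h2
  have h5 := mul_pos (H.v_pos t) (hs t)
  nlinarith

/-- For short bicycles, some solution turns by more than `2π`. -/
lemma Trk.short (H : Trk T X Y v φ k V) (hk : ∀ t, k t < l * v t) :
    ∃ θ, Sol v φ l θ ∧ θ 0 + 2 * π < θ T := by
  have hT := H.T_pos
  have hπ := Real.pi_pos
  have hV : 0 ≤ V := (H.v_pos 0).le.trans (H.v_le 0)
  have hl : 0 < l := by
    have h1 := (H.k_nonneg 0).trans_lt (hk 0)
    exact pos_of_mul_pos_left h1 (H.v_pos 0).le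
  have hθ := H.flow_sol l (φ 0 - π / 2)
  have hθ0 := H.flow_zero l (φ 0 - π / 2)
  refine ⟨_, hθ, ?_⟩
  set θ := H.flow l (φ 0 - π / 2) with hθdef
  set d : ℝ → ℝ := fun t => π / 2 - (φ t - θ t) with hd
  have hder : ∀ t, HasDerivAt d (-(k t - l * v t * sin (φ t - θ t))) t := fun t =>
    (((H.hφ t).sub (hθ t)).const_sub _)
  have hsin : ∀ t, sin (φ t - θ t) = cos (d t) := by
    intro t
    rw [hd]
    simp only
    rw [Real.cos_pi_div_two_sub]
  have hcos : ∀ x : ℝ, 1 - |x| ≤ cos x := by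
    intro x
    have h1 := Real.abs_cos_sub_cos_le 0 x
    rw [Real.cos_zero, zero_sub, abs_neg] at h1
    have h2 := (_root_.abs_le.1 h1).2
    linarith
  have hL : ∀ t, -(l * V * |d t|) ≤ -(k t - l * v t * sin (φ t - θ t)) := by
    intro t
    rw [hsin]
    have h1 := hcos (d t)
    have h2 := mul_le_mul_of_nonneg_left h1 (mul_pos hl (H.v_pos t)).le
    have h3 := hk t
    have h4 : l * v t * |d t| ≤ l * V * |d t| :=
      mul_le_mul_of_nonneg_right (mul_le_mul_of_nonneg_left (H.v_le t) hl.le) (abs_nonneg _)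
    linarith
  have hcont : Continuous d := continuous_iff_continuousAt.2 fun t => (hder t).continuousAt
  have hφT : φ T = φ 0 + 2 * π := by simpa using H.φ_per 0
  by_contra hcon
  push Not at hcon
  have hz := comparison_zero (L := l * V) hcont.continuousOn
    (fun t (_ : t ∈ Ioo 0 T) => hder t)
    (fun t _ => hL t) (by simp only [hd]; linarith) (by simp only [hd]; linarith)
  obtain ⟨t, ht⟩ : (Ioo 0 T).Nonempty := nonempty_Ioo.2 hT
  have h2 := deriv_zero hz ht (hder t)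
  rw [hsin, hz t ⟨ht.1.le, ht.2.le⟩, Real.cos_zero] at h2
  have := hk t
  linarith

/-- For long bicycles, every solution turns by less than `2π`. -/
lemma Trk.long (H : Trk T X Y v φ k V) (hl : 0 ≤ l) (hθ : Sol v φ l θ) :
    θ T ≤ θ 0 + l * V * T := by
  have hT := H.T_pos
  have h := Convex.image_sub_le_mul_sub_of_deriv_le (D := Icc 0 T) (f := θ) (C := l * V)
    (convex_Icc _ _) hθ.continuous.continuousOn
    (fun t _ => (hθ t).differentiableAt.differentiableWithinAt)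
    (fun t _ => by
      rw [(hθ t).deriv]
      have h1 : l * v t * sin (φ t - θ t) ≤ l * v t * 1 :=
        mul_le_mul_of_nonneg_left (Real.sin_le_one _) (mul_nonneg hl (H.v_pos t).le)
      have h2 : l * v t ≤ l * V := mul_le_mul_of_nonneg_left (H.v_le t) hl
      linarith) 0 (left_mem_Icc.2 hT.le) T (right_mem_Icc.2 hT.le) hT.le
  linarith

lemma Trk.k_per (H : Trk T X Y v φ k V) (t : ℝ) : k (t + T) = k t := by
  have h1 : HasDerivAt (fun t => φ (t + T)) (k (t + T)) t := (H.hφ (t + T)).comp_add_const t T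
  have h2 : HasDerivAt (fun t => φ (t + T)) (k t) t := by
    have : (fun t => φ (t + T)) = fun t => φ t + 2 * π := funext H.φ_per
    rw [this]
    exact (H.hφ t).add_const _
  exact h1.unique h2

lemma Trk.exists_short (H : Trk T X Y v φ k V) : ∃ l, 0 < l ∧ ∀ t, k t < l * v t := by
  have hT := H.T_pos
  have hcont : Continuous fun t => k t / v t := H.k_cont.div H.v_cont fun t => (H.v_pos t).ne'
  have hper : Function.Periodic (fun t => k t / v t) T := fun t => by
    simp only [H.k_per, H.v_per]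
  obtain ⟨C, hC⟩ := (isCompact_Icc (a := (0 : ℝ)) (b := T)).bddAbove_image hcont.continuousOn
  have hC' : ∀ t, k t / v t ≤ C := by
    intro t
    obtain ⟨s, hs, hst⟩ := hper.exists_mem_Ico₀ hT t
    rw [hst]
    exact hC ⟨s, ⟨hs.1, hs.2.le⟩, rfl⟩
  have hC0 : 0 ≤ C := (div_nonneg (H.k_nonneg 0) (H.v_pos 0).le).trans (hC' 0)
  refine ⟨C + 1, by linarith, fun t => ?_⟩
  have h1 := hC' t
  rw [div_le_iff₀ (H.v_pos t)] at h1
  have := H.v_pos t
  nlinarith

/-- The solutions for which the total turn is a multiple of `2π`. -/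
def Closed (T : ℝ) (θ : ℝ → ℝ) : Prop := ∃ m : ℤ, θ T = θ 0 + m * (2 * π)

/-- **The two regimes.** -/
theorem Trk.regimes (H : Trk T X Y v φ k V) : ∃ l₀ : ℝ, 0 < l₀ ∧
    (∀ l, 0 < l → l < l₀ → ∀ θ, Sol v φ l θ → ¬ Closed T θ) ∧
    (∀ l, l₀ < l → (∃ θ η, Sol v φ l θ ∧ Sol v φ l η ∧ Closed T θ ∧ Closed T η ∧
      sin ((η 0 - θ 0) / 2) ≠ 0) ∧ ∃ θ, Sol v φ l θ ∧ ¬ Closed T θ) := by
  have hT := H.T_pos
  have hπ := Real.pi_pos
  have hV : 0 < V := (H.v_pos 0).trans_le (H.v_le 0)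
  set S : Set ℝ := {l | 0 < l ∧ ∃ θ, Sol v φ l θ ∧ θ 0 + 2 * π < θ T} with hS
  have hSne : S.Nonempty := by
    obtain ⟨l, hl, hk⟩ := H.exists_short
    exact ⟨l, hl, H.short hk⟩
  have hlow : ∀ l ∈ S, 2 * π / (V * T) ≤ l := by
    rintro l ⟨hl, θ, hθ, h⟩
    have h1 := H.long hl.le hθ
    rw [div_le_iff₀ (by positivity)]
    nlinarith
  have hbdd : BddBelow S := ⟨_, hlow⟩
  refine ⟨sInf S, lt_of_lt_of_le (by positivity) (le_csInf hSne hlow), ?_, ?_⟩
  · rintro l hl hl0 θ hθ ⟨m, hm⟩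
    have hm0 : 0 < m := by
      have h1 := H.turn_pos hl hθ
      by_contra hle
      push Not at hle
      have h2 : (m : ℝ) ≤ 0 := by exact_mod_cast hle
      nlinarith
    have hm1 : (1 : ℝ) ≤ m := by exact_mod_cast hm0
    have h3 : θ 0 + 2 * π ≤ θ T := by nlinarith
    have h4 : sInf S ≤ (l + sInf S) / 2 := csInf_le hbdd
      ⟨by linarith, H.mono_l hl hθ h3 (by linarith)⟩
    linarith
  · intro l hl
    obtain ⟨l', ⟨hl', θ', hθ', h'⟩, hl'l⟩ := exists_lt_of_csInf_lt hSne hl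
    have hlpos : 0 < l := hl'.trans hl'l
    obtain ⟨ζ, hζ, hζ2⟩ := H.mono_l hl' hθ' h'.le hl'l
    -- the solution starting at the tangent direction
    have hη := H.flow_sol l (φ 0)
    have hη0 := H.flow_zero l (φ 0)
    have hηlt := H.turn_lt hlpos.le hη hη0
    have hηpos := H.turn_pos hlpos hη
    set η := H.flow l (φ 0) with hηdef
    -- shift `ζ`
    obtain ⟨m, hm⟩ : ∃ m : ℤ, φ 0 ≤ ζ 0 + m * (2 * π) ∧ ζ 0 + m * (2 * π) ≤ φ 0 + 2 * π := by
      refine ⟨⌈(φ 0 - ζ 0) / (2 * π)⌉, ?_, ?_⟩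
      · have := Int.le_ceil ((φ 0 - ζ 0) / (2 * π))
        rw [div_le_iff₀ (by positivity)] at this
        linarith
      · have := (Int.ceil_lt_add_one ((φ 0 - ζ 0) / (2 * π))).le
        rw [← sub_le_iff_le_add, le_div_iff₀ (by positivity)] at this
        linarith
    have hζm := hζ.add_int m
    set ξ : ℝ → ℝ := fun t => ζ t + m * (2 * π) with hξ
    have hξ0 : ξ 0 = ζ 0 + m * (2 * π) := rfl
    have hξT : ξ T = ζ T + m * (2 * π) := rfl
    have hη1 := hη.add_int 1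
    set η₁ : ℝ → ℝ := fun t => η t + (1 : ℤ) * (2 * π) with hη₁
    have hη₁0 : η₁ 0 = η 0 + 2 * π := by rw [hη₁]; push_cast; ring
    have hη₁T : η₁ T = η T + 2 * π := by rw [hη₁]; push_cast; ring
    obtain ⟨α, hα, hα1, hα2, hα3⟩ := H.ivt hη hζm (c := 2 * π) (by rw [hη0, hξ0]; exact hm.1) (by
      rw [mem_uIcc]; left; constructor <;> linarith)
    obtain ⟨β, hβ, hβ1, hβ2, hβ3⟩ := H.ivt hζm hη1 (c := 2 * π) (by
      rw [hη₁0, hη0, hξ0]; exact hm.2) (by
      rw [mem_uIcc]; right; constructor <;> linarith)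
    refine ⟨⟨α, β, hα, hβ, ⟨1, by push_cast; linarith⟩, ⟨1, by push_cast; linarith⟩, ?_⟩,
      η, hη, ?_⟩
    · have hne : ∀ {ψ χ : ℝ → ℝ}, Sol v φ l ψ → Sol v φ l χ → ψ T - ψ 0 ≠ χ T - χ 0 →
          ψ 0 ≠ χ 0 := by
        intro ψ χ h1 h2 h3 h4
        exact h3 (by rw [H.unique h1 h2 h4])
      have e1 : η 0 < α 0 := lt_of_le_of_ne hα1 (hne hη hα (by rw [hα3]; linarith))
      have e2 : α 0 < ξ 0 := lt_of_le_of_ne hα2 (hne hα hζm (by rw [hα3]; linarith))
      have e3 : ξ 0 < β 0 := lt_of_le_of_ne hβ1 (hne hζm hβ (by rw [hβ3]; linarith))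
      have e4 : β 0 < η₁ 0 := lt_of_le_of_ne hβ2 (hne hβ hη1 (by rw [hβ3]; linarith))
      exact (sin_pos_of_pos_of_lt_pi (by linarith) (by linarith)).ne'
    · rintro ⟨n, hn⟩
      have h1 : (0 : ℝ) < n := by nlinarith
      have h2 : (n : ℝ) < 1 := by nlinarith
      have h3 : 0 < n := by exact_mod_cast h1
      have h4 : n < 1 := by exact_mod_cast h2
      omega

end Pool.Agent.L0h97.Bike
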