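import Mathlib
import Pool.Agent.L0h97.Bike.Regime

/-!
# The monodromy matrix
-/

set_option autoImplicit false

open Set Filter Topology Real

namespace Pool.Agent.L0h97.Bike

/-- The steering equation for a front wheel with velocity `(p, q)`. -/
def Steer (p q : ℝ → ℝ) (l : ℝ) (θ : ℝ → ℝ) : Prop :=
  ∀ t, HasDerivAt θ (l * (q t * cos (θ t) - p t * sin (θ t))) t

/-- Solutions of the linear system. -/
def Lin (p q : ℝ → ℝ) (l : ℝ) (u w : ℝ → ℝ) : Prop :=
  ∀ t, HasDerivAt u (l / 2 * (p t * u t + q t * w t)) t ∧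
    HasDerivAt w (l / 2 * (q t * u t - p t * w t)) t

variable {p q : ℝ → ℝ} {l T : ℝ} {θ : ℝ → ℝ}

lemma Steer.continuous (h : Steer p q l θ) : Continuous θ :=
  continuous_iff_continuousAt.2 fun t => (h t).continuousAt

/-- The steering equation is the projectivization of a linear system. -/
lemma Steer.lin (hp : Continuous p) (hq : Continuous q) (h : Steer p q l θ) :
    ∃ ρ : ℝ → ℝ, ρ 0 = 1 ∧ (∀ t, 0 < ρ t) ∧
      Lin p q l (fun t => ρ t * cos (θ t / 2)) (fun t => ρ t * sin (θ t / 2)) := by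
  have hθ := h.continuous
  set f : ℝ → ℝ := fun t => l / 2 * (p t * cos (θ t) + q t * sin (θ t)) with hf
  have hfc : Continuous f := by fun_prop
  refine ⟨fun t => exp (∫ s in (0 : ℝ)..t, f s), by simp, fun t => exp_pos _, fun t => ?_⟩
  have h1 : HasDerivAt (fun t => exp (∫ s in (0 : ℝ)..t, f s))
      (exp (∫ s in (0 : ℝ)..t, f s) * f t) t :=
    (intervalIntegral.integral_hasDerivAt_right (hfc.intervalIntegrable _ _)
      (hfc.stronglyMeasurableAtFilter _ _) hfc.continuousAt).exp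
  have h2 : HasDerivAt (fun t => θ t / 2) (l * (q t * cos (θ t) - p t * sin (θ t)) / 2) t :=
    (h t).div_const 2
  have hc : cos (θ t) = cos (θ t / 2) ^ 2 - sin (θ t / 2) ^ 2 := by
    have h3 := Real.cos_two_mul (θ t / 2)
    have h4 := Real.sin_sq_add_cos_sq (θ t / 2)
    rw [show 2 * (θ t / 2) = θ t by ring] at h3
    linarith
  have hs : sin (θ t) = 2 * sin (θ t / 2) * cos (θ t / 2) := by
    have h3 := Real.sin_two_mul (θ t / 2)
    rwa [show 2 * (θ t / 2) = θ t by ring] at h3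
  have h4 := Real.sin_sq_add_cos_sq (θ t / 2)
  constructor
  · refine (h1.fun_mul h2.cos).congr_deriv ?_
    simp only [hf, hc, hs]
    set E := exp (∫ s in (0 : ℝ)..t, l / 2 * (p s * cos (θ s) + q s * sin (θ s)))
    set c := cos (θ t / 2)
    set s := sin (θ t / 2)
    linear_combination (E * l / 2 * (p t * c + q t * s)) * h4
  · refine (h1.fun_mul h2.sin).congr_deriv ?_
    simp only [hf, hc, hs]
    set E := exp (∫ s in (0 : ℝ)..t, l / 2 * (p s * cos (θ s) + q s * sin (θ s)))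
    set c := cos (θ t / 2)
    set s := sin (θ t / 2)
    linear_combination (E * l / 2 * (q t * c - p t * s)) * h4

/-- The Wronskian is constant. -/
lemma Lin.wronskian {u w u' w' : ℝ → ℝ} (h : Lin p q l u w) (h' : Lin p q l u' w') (t : ℝ) :
    u t * w' t - u' t * w t = u 0 * w' 0 - u' 0 * w 0 := by
  have hd : ∀ t, HasDerivAt (fun t => u t * w' t - u' t * w t) 0 t := by
    intro t
    refine (((h t).1.fun_mul (h' t).2).fun_sub ((h' t).1.fun_mul (h t).2)).congr_deriv ?_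
    ring
  exact is_const_of_deriv_eq_zero (fun x => (hd x).differentiableAt) (fun x => (hd x).deriv) t 0

/-- The entries of a monodromy matrix: the projective map `θ 0 ↦ θ T` is given by
`(a, b; c, d)`. -/
def Mono (p q : ℝ → ℝ) (T l a b c d : ℝ) : Prop :=
  a * d - b * c = 1 ∧ ∀ θ, Steer p q l θ → ∃ r : ℝ,
    a * cos (θ 0 / 2) + b * sin (θ 0 / 2) = r * cos (θ T / 2) ∧
    c * cos (θ 0 / 2) + d * sin (θ 0 / 2) = r * sin (θ T / 2)

/-- Existence of a monodromy matrix. -/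
lemma exists_mono (hp : Continuous p) (hq : Continuous q) {θ₁ θ₂ : ℝ → ℝ}
    (h1 : Steer p q l θ₁) (h10 : θ₁ 0 = 0) (h2 : Steer p q l θ₂) (h20 : θ₂ 0 = π) :
    ∃ a b c d, Mono p q T l a b c d := by
  obtain ⟨ρ₁, r1, -, L1⟩ := h1.lin hp hq
  obtain ⟨ρ₂, r2, -, L2⟩ := h2.lin hp hq
  refine ⟨ρ₁ T * cos (θ₁ T / 2), ρ₂ T * cos (θ₂ T / 2), ρ₁ T * sin (θ₁ T / 2),
    ρ₂ T * sin (θ₂ T / 2), ?_, ?_⟩
  · have h := L1.wronskian L2 T
    simp only [r1, r2, h10, h20, zero_div, cos_zero, sin_zero, Real.cos_pi_div_two,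
      Real.sin_pi_div_two] at h
    linarith
  · intro θ hθ
    obtain ⟨ρ, r, -, L⟩ := hθ.lin hp hq
    have e1 := L1.wronskian L2 T
    have e2 := L1.wronskian L T
    have e3 := L.wronskian L2 T
    simp only [r1, r2, r, h10, h20, zero_div, cos_zero, sin_zero, Real.cos_pi_div_two,
      Real.sin_pi_div_two] at e1 e2 e3
    refine ⟨ρ T, ?_, ?_⟩
    · linear_combination (-(ρ₁ T * cos (θ₁ T / 2))) * e3 - (ρ₂ T * cos (θ₂ T / 2)) * e2 +
        (ρ T * cos (θ T / 2)) * e1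
    · linear_combination (-(ρ₁ T * sin (θ₁ T / 2))) * e3 - (ρ₂ T * sin (θ₂ T / 2)) * e2 +
        (ρ T * sin (θ T / 2)) * e1

/-- If `|trace| ≥ 2`, then some solution closes up. -/
lemma Mono.closed {a b c d : ℝ} (h : Mono p q T l a b c d)
    (hex : ∀ x, ∃ θ, Steer p q l θ ∧ θ 0 = x) (htr : 2 ≤ |a + d|) :
    ∃ θ, Steer p q l θ ∧ Closed T θ := by
  obtain ⟨hdet, hM⟩ := h
  -- a real eigenvalue
  have hdisc : 0 ≤ (a + d) ^ 2 - 4 := by
    have h1 := mul_le_mul htr htr (by norm_num) (abs_nonneg _)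
    rw [abs_mul_abs_self] at h1
    nlinarith
  set μ : ℝ := ((a + d) + sqrt ((a + d) ^ 2 - 4)) / 2 with hμ
  have hchar : μ ^ 2 - (a + d) * μ + 1 = 0 := by
    have h1 := Real.sq_sqrt hdisc
    rw [hμ]
    nlinarith
  clear_value μ
  have hμ0 : μ ≠ 0 := by
    intro h0
    rw [h0] at hchar
    norm_num at hchar
  -- a real eigenvector
  obtain ⟨x, y, hxy, e1, e2⟩ : ∃ x y : ℝ, (x ≠ 0 ∨ y ≠ 0) ∧ a * x + b * y = μ * x ∧
      c * x + d * y = μ * y := by
    by_cases hb : b = 0 ∧ a = μ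
    · obtain ⟨hb, ha⟩ := hb
      by_cases hc : c = 0 ∧ d = μ
      · exact ⟨1, 0, Or.inl one_ne_zero, by rw [ha]; ring, by rw [hc.1]; ring⟩
      · refine ⟨μ - d, c, ?_, by rw [hb, ha]; ring, by ring⟩
        by_contra hcon
        push Not at hcon
        exact hc ⟨hcon.2, by linarith [hcon.1]⟩
    · refine ⟨b, μ - a, ?_, by ring, by linear_combination (-1 : ℝ) * hchar - hdet⟩
      by_contra hcon
      push Not at hcon
      exact hb ⟨hcon.1, by linarith [hcon.2]⟩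
  -- normalize
  set z : ℂ := ⟨x, y⟩ with hz
  have hz0 : z ≠ 0 := by
    intro h0
    have h1 : x = 0 := congrArg Complex.re h0
    have h2 : y = 0 := congrArg Complex.im h0
    tauto
  have hn : 0 < ‖z‖ := norm_pos_iff.2 hz0
  have hx : x = ‖z‖ * cos (Complex.arg z) := by
    rw [Complex.cos_arg hz0]; field_simp; rfl
  have hy : y = ‖z‖ * sin (Complex.arg z) := by
    rw [Complex.sin_arg]; field_simp; rfl
  set n := ‖z‖
  set α := Complex.arg z
  obtain ⟨θ, hθ, hθ0⟩ := hex (2 * α)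
  obtain ⟨r, f1, f2⟩ := hM θ hθ
  rw [hθ0, show 2 * α / 2 = α by ring] at f1 f2
  have g1 : μ * cos α = r * cos (θ T / 2) := by
    rw [← f1]
    have : n * (μ * cos α) = n * (a * cos α + b * sin α) := by
      rw [hx, hy] at e1; linarith
    exact mul_left_cancel₀ hn.ne' this
  have g2 : μ * sin α = r * sin (θ T / 2) := by
    rw [← f2]
    have : n * (μ * sin α) = n * (c * cos α + d * sin α) := by
      rw [hx, hy] at e2; linarith
    exact mul_left_cancel₀ hn.ne' this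
  have g3 : sin (θ T / 2 - α) = 0 := by
    rw [Real.sin_sub]
    have g4 : μ * (sin (θ T / 2) * cos α - cos (θ T / 2) * sin α) = 0 := by
      linear_combination sin (θ T / 2) * g1 - cos (θ T / 2) * g2
    exact (mul_eq_zero.1 g4).resolve_left hμ0
  obtain ⟨m, hm⟩ := Real.sin_eq_zero_iff.1 g3
  exact ⟨θ, hθ, m, by rw [hθ0]; linarith⟩

/-- A closed solution gives an eigenvector. -/
lemma Mono.eigen {a b c d : ℝ} (h : Mono p q T l a b c d) {θ : ℝ → ℝ} (hθ : Steer p q l θ)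
    (hc : Closed T θ) : ∃ μ : ℝ, a * cos (θ 0 / 2) + b * sin (θ 0 / 2) = μ * cos (θ 0 / 2) ∧
      c * cos (θ 0 / 2) + d * sin (θ 0 / 2) = μ * sin (θ 0 / 2) := by
  obtain ⟨r, f1, f2⟩ := h.2 θ hθ
  obtain ⟨m, hm⟩ := hc
  have h1 : θ T / 2 = θ 0 / 2 + m * π := by rw [hm]; ring
  refine ⟨r * (-1) ^ m, ?_, ?_⟩
  · rw [f1, h1, Real.cos_add_int_mul_pi]; ring
  · rw [f2, h1, Real.sin_add_int_mul_pi]; ring

/-- Two closed solutions and a non-closed one: the trace exceeds `2`. -/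
lemma Mono.hyperbolic {a b c d : ℝ} (h : Mono p q T l a b c d) {θ η ζ : ℝ → ℝ}
    (hθ : Steer p q l θ) (hη : Steer p q l η) (hζ : Steer p q l ζ)
    (hcθ : Closed T θ) (hcη : Closed T η) (hcζ : ¬ Closed T ζ)
    (hne : sin ((η 0 - θ 0) / 2) ≠ 0) : 2 < |a + d| := by
  obtain ⟨μ, e1, e2⟩ := h.eigen hθ hcθ
  obtain ⟨ν, f1, f2⟩ := h.eigen hη hcη
  have hW : sin ((η 0 - θ 0) / 2) =
      cos (θ 0 / 2) * sin (η 0 / 2) - cos (η 0 / 2) * sin (θ 0 / 2) := by
    rw [sub_div, Real.sin_sub]; ring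
  rw [hW] at hne
  set x₁ := cos (θ 0 / 2)
  set y₁ := sin (θ 0 / 2)
  set x₂ := cos (η 0 / 2)
  set y₂ := sin (η 0 / 2)
  have hdet := h.1
  have t1 : a + d = μ + ν := by
    apply mul_right_cancel₀ hne
    linear_combination y₂ * e1 - y₁ * f1 - x₂ * e2 + x₁ * f2
  have t2 : μ * ν = 1 := by
    apply mul_right_cancel₀ hne
    have : (a * x₁ + b * y₁) * (c * x₂ + d * y₂) - (a * x₂ + b * y₂) * (c * x₁ + d * y₁) =
      (a * d - b * c) * (x₁ * y₂ - x₂ * y₁) := by ring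
    rw [hdet, e1, e2, f1, f2] at this
    linarith
  by_contra hle
  push Not at hle
  have h4 : (a + d) ^ 2 ≤ 4 := by
    have := sq_le_sq' (_root_.abs_le.1 hle).1 (_root_.abs_le.1 hle).2
    linarith
  have h5 : (μ - ν) ^ 2 ≤ 0 := by rw [t1] at h4; nlinarith
  have h6 : μ = ν := by
    have := pow_eq_zero_iff (two_ne_zero) |>.1 (le_antisymm h5 (sq_nonneg _))
    linarith
  subst h6
  have b0 : b = 0 := by
    have : b * (x₁ * y₂ - x₂ * y₁) = 0 := by linear_combination x₁ * f1 - x₂ * e1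
    exact (mul_eq_zero.1 this).resolve_right hne
  have c0 : c = 0 := by
    have : c * (x₁ * y₂ - x₂ * y₁) = 0 := by linear_combination y₂ * e2 - y₁ * f2
    exact (mul_eq_zero.1 this).resolve_right hne
  have a0 : a = μ := by
    have : (a - μ) * (x₁ * y₂ - x₂ * y₁) = 0 := by linear_combination y₂ * e1 - y₁ * f1
    have := (mul_eq_zero.1 this).resolve_right hne
    linarith
  have d0 : d = μ := by
    have : (d - μ) * (x₁ * y₂ - x₂ * y₁) = 0 := by linear_combination x₁ * f2 - x₂ * e2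
    have := (mul_eq_zero.1 this).resolve_right hne
    linarith
  obtain ⟨r, g1, g2⟩ := h.2 ζ hζ
  rw [a0, b0] at g1
  rw [c0, d0] at g2
  have hμ0 : μ ≠ 0 := by rintro rfl; norm_num at t2
  have g3 : sin (ζ T / 2 - ζ 0 / 2) = 0 := by
    rw [Real.sin_sub]
    have g4 : μ * (sin (ζ T / 2) * cos (ζ 0 / 2) - cos (ζ T / 2) * sin (ζ 0 / 2)) = 0 := by
      linear_combination sin (ζ T / 2) * g1 - cos (ζ T / 2) * g2
    exact (mul_eq_zero.1 g4).resolve_left hμ0
  obtain ⟨m, hm⟩ := Real.sin_eq_zero_iff.1 g3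
  exact hcζ ⟨m, by linarith⟩

end Pool.Agent.L0h97.Bike
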