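import Mathlib
import Pool.Agent.L0h97.Bike.Mono

/-!
# From convex curves to the analytic data
-/

set_option autoImplicit false

open Set Filter Topology Real

namespace Pool.Agent.L0h97.Bike

variable {x y p q p' q' : ℝ → ℝ} {T : ℝ}

/-- Analytic data of a convex curve, before passing to the tangent angle. -/
structure Pre (T : ℝ) (x y p q p' q' : ℝ → ℝ) : Prop where
  T_pos : 0 < T
  hx : ∀ t, HasDerivAt x (p t) t
  hy : ∀ t, HasDerivAt y (q t) t
  hp : ∀ t, HasDerivAt p (p' t) t
  hq : ∀ t, HasDerivAt q (q' t) t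
  p'_cont : Continuous p'
  q'_cont : Continuous q'
  reg : ∀ t, p t ≠ 0 ∨ q t ≠ 0
  x_per : ∀ t, x (t + T) = x t
  y_per : ∀ t, y (t + T) = y t
  cvx : ∀ t s, t < s → s < t + T → 0 < p t * (y s - y t) - q t * (x s - x t)

lemma Pre.sq_pos (H : Pre T x y p q p' q') (t : ℝ) : 0 < p t ^ 2 + q t ^ 2 := by
  rcases H.reg t with h | h
  · have := sq_pos_of_ne_zero h
    positivity
  · have := sq_pos_of_ne_zero h
    positivity

lemma Pre.p_cont (H : Pre T x y p q p' q') : Continuous p :=
  continuous_iff_continuousAt.2 fun t => (H.hp t).continuousAt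

lemma Pre.q_cont (H : Pre T x y p q p' q') : Continuous q :=
  continuous_iff_continuousAt.2 fun t => (H.hq t).continuousAt

lemma Pre.p_per (H : Pre T x y p q p' q') (t : ℝ) : p (t + T) = p t := by
  have h1 : HasDerivAt (fun t => x (t + T)) (p (t + T)) t := (H.hx (t + T)).comp_add_const t T
  have h2 : (fun t => x (t + T)) = x := funext H.x_per
  rw [h2] at h1
  exact h1.unique (H.hx t)

lemma Pre.q_per (H : Pre T x y p q p' q') (t : ℝ) : q (t + T) = q t := by
  have h1 : HasDerivAt (fun t => y (t + T)) (q (t + T)) t := (H.hy (t + T)).comp_add_const t T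
  have h2 : (fun t => y (t + T)) = y := funext H.y_per
  rw [h2] at h1
  exact h1.unique (H.hy t)

/-- Nonnegative curvature. -/
lemma Pre.curv (H : Pre T x y p q p' q') (t : ℝ) : 0 ≤ p t * q' t - q t * p' t := by
  by_contra hcon
  push Not at hcon
  have hT := H.T_pos
  set h : ℝ → ℝ := fun s => p t * (y s - y t) - q t * (x s - x t) with hh
  have hd : ∀ s, HasDerivAt h (p t * q s - q t * p s) s := fun s =>
    (((H.hy s).sub_const _).const_mul _).sub (((H.hx s).sub_const _).const_mul _)
  have hd1 : deriv h = fun s => p t * q s - q t * p s := funext fun s => (hd s).deriv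
  have hd2 : deriv (deriv h) t = p t * q' t - q t * p' t := by
    rw [hd1]
    exact (((H.hq t).const_mul _).sub ((H.hp t).const_mul _)).deriv
  have hmax : IsLocalMax h t := isLocalMax_of_deriv_deriv_neg (by rw [hd2]; exact hcon)
    (by rw [hd1]; ring) (hd t).continuousAt
  have h0 : h t = 0 := by rw [hh]; ring
  obtain ⟨s, hs1, hs2⟩ : ∃ s, h s ≤ h t ∧ s ∈ Ioo t (t + T) := by
    have h1 : ∀ᶠ s in 𝓝[>] t, h s ≤ h t := hmax.filter_mono nhdsWithin_le_nhds
    have h2 : ∀ᶠ s in 𝓝[>] t, s ∈ Ioo t (t + T) := Ioo_mem_nhdsGT (by linarith)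
    exact (h1.and h2).exists
  have h3 := H.cvx t s hs2.1 hs2.2
  rw [h0] at hs1
  simp only [hh] at hs1
  linarith

/-- The tangent angle. -/
lemma Pre.trk (H : Pre T x y p q p' q') : ∃ (v φ k : ℝ → ℝ) (V : ℝ), Trk T x y v φ k V ∧
    ∀ t, p t = v t * cos (φ t) ∧ q t = v t * sin (φ t) := by
  have hT := H.T_pos
  have hpc := H.p_cont
  have hqc := H.q_cont
  have hp'c := H.p'_cont
  have hq'c := H.q'_cont
  have hπ := Real.pi_pos
  set v : ℝ → ℝ := fun t => sqrt (p t ^ 2 + q t ^ 2) with hv
  have hvpos : ∀ t, 0 < v t := fun t => Real.sqrt_pos.2 (H.sq_pos t)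
  have hvsq : ∀ t, v t ^ 2 = p t ^ 2 + q t ^ 2 := fun t => Real.sq_sqrt (H.sq_pos t).le
  have hvc : Continuous v := by rw [hv]; fun_prop
  have hvd : ∀ t, HasDerivAt v ((p t * p' t + q t * q' t) / v t) t := by
    intro t
    have h1 : HasDerivAt (fun t => p t ^ 2 + q t ^ 2) (2 * (p t * p' t + q t * q' t)) t := by
      refine (((H.hp t).fun_pow 2).fun_add ((H.hq t).fun_pow 2)).congr_deriv ?_
      push_cast
      ring
    refine (h1.sqrt (H.sq_pos t).ne').congr_deriv ?_
    change 2 * (p t * p' t + q t * q' t) / (2 * v t) = _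
    have := (hvpos t).ne'
    field_simp
  set k : ℝ → ℝ := fun t => (p t * q' t - q t * p' t) / (p t ^ 2 + q t ^ 2) with hk
  have hkc : Continuous k := by
    rw [hk]
    exact Continuous.div (by fun_prop) (by fun_prop) fun t => (H.sq_pos t).ne'
  have hknn : ∀ t, 0 ≤ k t := fun t => div_nonneg (H.curv t) (H.sq_pos t).le
  -- unit tangent vector
  set c : ℝ → ℝ := fun t => p t / v t with hc
  set s : ℝ → ℝ := fun t => q t / v t with hs
  have hcd : ∀ t, HasDerivAt c (-(k t) * s t) t := by
    intro t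
    refine ((H.hp t).fun_div (hvd t) (hvpos t).ne').congr_deriv ?_
    have h1 := (hvpos t).ne'
    have h2 := hvsq t
    have h3 := (H.sq_pos t).ne'
    simp only [hk, hs]
    rw [← h2]
    field_simp
    rw [h2]
    ring
  have hsd : ∀ t, HasDerivAt s (k t * c t) t := by
    intro t
    refine ((H.hq t).fun_div (hvd t) (hvpos t).ne').congr_deriv ?_
    have h1 := (hvpos t).ne'
    have h2 := hvsq t
    have h3 := (H.sq_pos t).ne'
    simp only [hk, hc]
    rw [← h2]
    field_simp
    rw [h2]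
    ring
  have hcs : ∀ t, c t ^ 2 + s t ^ 2 = 1 := by
    intro t
    simp only [hc, hs, div_pow, ← add_div, ← hvsq]
    exact div_self (pow_ne_zero 2 (hvpos t).ne')
  -- initial angle
  obtain ⟨φ₀, h0c, h0s⟩ : ∃ φ₀ : ℝ, cos φ₀ = c 0 ∧ sin φ₀ = s 0 := by
    set z : ℂ := ⟨c 0, s 0⟩ with hz
    have hn : ‖z‖ = 1 := by
      rw [Complex.norm_def, Complex.normSq_mk, ← sq, ← sq, hcs, Real.sqrt_one]
    have hz0 : z ≠ 0 := by
      intro h
      rw [h, norm_zero] at hn
      exact zero_ne_one hn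
    refine ⟨Complex.arg z, ?_, ?_⟩
    · rw [Complex.cos_arg hz0, hn, div_one]
    · rw [Complex.sin_arg, hn, div_one]
  set φ : ℝ → ℝ := fun t => φ₀ + ∫ u in (0 : ℝ)..t, k u with hφ
  have hφd : ∀ t, HasDerivAt φ (k t) t := fun t =>
    (intervalIntegral.integral_hasDerivAt_right (hkc.intervalIntegrable _ _)
      (hkc.stronglyMeasurableAtFilter _ _) hkc.continuousAt).const_add _
  have hφ0 : φ 0 = φ₀ := by simp [hφ]
  have hA : ∀ t, c t * cos (φ t) + s t * sin (φ t) = 1 := by
    have hd : ∀ t, HasDerivAt (fun t => c t * cos (φ t) + s t * sin (φ t)) 0 t := by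
      intro t
      refine (((hcd t).fun_mul (hφd t).cos).fun_add ((hsd t).fun_mul (hφd t).sin)).congr_deriv ?_
      ring
    intro t
    have := is_const_of_deriv_eq_zero (fun x => (hd x).differentiableAt)
      (fun x => (hd x).deriv) t 0
    rw [this, hφ0, h0c, h0s]
    have := hcs 0
    linarith
  have hB : ∀ t, s t * cos (φ t) - c t * sin (φ t) = 0 := by
    have hd : ∀ t, HasDerivAt (fun t => s t * cos (φ t) - c t * sin (φ t)) 0 t := by
      intro t
      refine (((hsd t).fun_mul (hφd t).cos).fun_sub ((hcd t).fun_mul (hφd t).sin)).congr_deriv ?_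
      ring
    intro t
    have := is_const_of_deriv_eq_zero (fun x => (hd x).differentiableAt)
      (fun x => (hd x).deriv) t 0
    rw [this, hφ0, h0c, h0s]
    ring
  have hcφ : ∀ t, c t = cos (φ t) := by
    intro t
    have h1 := hA t
    have h2 := hB t
    have h3 := Real.sin_sq_add_cos_sq (φ t)
    linear_combination cos (φ t) * h1 - sin (φ t) * h2 - c t * h3
  have hsφ : ∀ t, s t = sin (φ t) := by
    intro t
    have h1 := hA t
    have h2 := hB t
    have h3 := Real.sin_sq_add_cos_sq (φ t)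
    linear_combination sin (φ t) * h1 + cos (φ t) * h2 - s t * h3
  have hpv : ∀ t, p t = v t * cos (φ t) := by
    intro t
    rw [← hcφ]
    have := (hvpos t).ne'
    simp only [hc]
    field_simp
  have hqv : ∀ t, q t = v t * sin (φ t) := by
    intro t
    rw [← hsφ]
    have := (hvpos t).ne'
    simp only [hs]
    field_simp
  have hvper : ∀ t, v (t + T) = v t := fun t => by simp only [hv, H.p_per, H.q_per]
  have hcvx : ∀ t s, t < s → s < t + T →
      0 < cos (φ t) * (y s - y t) - sin (φ t) * (x s - x t) := by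
    intro t s h1 h2
    have h3 := H.cvx t s h1 h2
    rw [hpv, hqv] at h3
    have h4 : 0 < v t * (cos (φ t) * (y s - y t) - sin (φ t) * (x s - x t)) := by
      linarith
    exact pos_of_mul_pos_right h4 (hvpos t).le
  have hφc : Continuous φ := continuous_iff_continuousAt.2 fun t => (hφd t).continuousAt
  have hφm : Monotone φ := monotone_of_deriv_nonneg (fun t => (hφd t).differentiableAt)
    (fun t => by rw [(hφd t).deriv]; exact hknn t)
  -- strict monotonicity
  have hφsm : StrictMono φ := by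
    refine hφm.strictMono_of_injective ?_
    have key : ∀ a b, a < b → φ a ≠ φ b := by
      intro a b hab heq
      have hconst : ∀ t ∈ Icc a b, φ t = φ a := fun t ht =>
        le_antisymm ((hφm ht.2).trans heq.ge) (hφm ht.1)
      set N : ℝ → ℝ := fun t => cos (φ a) * (y t - y a) - sin (φ a) * (x t - x a) with hN
      have hNd : ∀ t, HasDerivAt N (cos (φ a) * q t - sin (φ a) * p t) t := fun t =>
        (((H.hy t).sub_const _).const_mul _).sub (((H.hx t).sub_const _).const_mul _)
      have hNc : Continuous N := continuous_iff_continuousAt.2 fun t => (hNd t).continuousAt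
      obtain ⟨b', hb'1, hb'2, hb'3⟩ : ∃ b', a < b' ∧ b' ≤ b ∧ b' < a + T :=
        ⟨min b (a + T / 2), lt_min hab (by linarith), min_le_left _ _,
          (min_le_right _ _).trans_lt (by linarith)⟩
      obtain ⟨t, ht, hte⟩ := exists_hasDerivAt_eq_slope N _ hb'1 hNc.continuousOn
        (fun t _ => hNd t)
      have h1 : cos (φ a) * q t - sin (φ a) * p t = 0 := by
        rw [hpv, hqv, hconst t ⟨ht.1.le, ht.2.le.trans hb'2⟩]
        ring
      rw [h1] at hte
      have h2 : N b' - N a = 0 := by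
        have h3 : b' - a ≠ 0 := by linarith
        field_simp at hte
        linarith
      have h3 : N a = 0 := by simp [hN]
      have h4 := hcvx a b' hb'1 hb'3
      rw [h3, sub_zero] at h2
      simp only [hN] at h2
      linarith
    intro a b hab
    rcases lt_trichotomy a b with h | h | h
    · exact absurd hab (key a b h)
    · exact h
    · exact absurd hab.symm (key b a h)
  -- total turning number
  have hturn : ∀ t, φ (t + T) - φ t = φ T - φ 0 := by
    have hk' : ∀ t, k (t + T) = k t := by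
      intro t
      have h1 : HasDerivAt (fun t => p (t + T)) (p' (t + T)) t := (H.hp (t + T)).comp_add_const t T
      have h2 : (fun t => p (t + T)) = p := funext H.p_per
      rw [h2] at h1
      have h3 : HasDerivAt (fun t => q (t + T)) (q' (t + T)) t := (H.hq (t + T)).comp_add_const t T
      have h4 : (fun t => q (t + T)) = q := funext H.q_per
      rw [h4] at h3
      simp only [hk, H.p_per, H.q_per, h1.unique (H.hp t), h3.unique (H.hq t)]
    have hd : ∀ t, HasDerivAt (fun t => φ (t + T) - φ t) 0 t := by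
      intro t
      refine (((hφd (t + T)).comp_add_const t T).fun_sub (hφd t)).congr_deriv ?_
      rw [hk']
      ring
    intro t
    have := is_const_of_deriv_eq_zero (fun x => (hd x).differentiableAt)
      (fun x => (hd x).deriv) t 0
    rw [this, zero_add]
  obtain ⟨n, hn⟩ : ∃ n : ℤ, φ T = φ 0 + n * (2 * π) := by
    have h1 : cos (φ T) = cos (φ 0) := by
      rw [← hcφ, ← hcφ]
      simp only [hc]
      rw [← zero_add T, H.p_per, hvper]
    have h2 : sin (φ T) = sin (φ 0) := by
      rw [← hsφ, ← hsφ]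
      simp only [hs]
      rw [← zero_add T, H.q_per, hvper]
    have h3 : cos (φ T - φ 0) = 1 := by
      rw [Real.cos_sub, h1, h2]
      have := Real.sin_sq_add_cos_sq (φ 0)
      linarith
    obtain ⟨n, hn⟩ := (Real.cos_eq_one_iff _).1 h3
    exact ⟨n, by linarith⟩
  have hn1 : n = 1 := by
    have h1 : φ 0 < φ T := hφsm hT
    have h2 : 0 < n := by
      by_contra hle
      push Not at hle
      have : (n : ℝ) ≤ 0 := by exact_mod_cast hle
      nlinarith
    by_contra hne
    have h3 : 2 ≤ n := by omega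
    have h4 : (2 : ℝ) ≤ n := by exact_mod_cast h3
    obtain ⟨t, ht, hte⟩ := intermediate_value_Icc hT.le hφc.continuousOn
      (show φ 0 + 2 * π ∈ Icc (φ 0) (φ T) from ⟨by linarith, by rw [hn]; nlinarith⟩)
    have ht0 : 0 < t := lt_of_le_of_ne ht.1 (by rintro rfl; linarith)
    have htT : t < T := lt_of_le_of_ne ht.2 (by rintro rfl; rw [hn] at hte; nlinarith)
    have e1 := hcvx 0 t ht0 (by linarith)
    have e2 := hcvx t T htT (by linarith)
    have e3 : x T = x 0 := by simpa using H.x_per 0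
    have e4 : y T = y 0 := by simpa using H.y_per 0
    rw [hte, Real.cos_add_two_pi, Real.sin_add_two_pi, e3, e4] at e2
    linarith
  have hφper : ∀ t, φ (t + T) = φ t + 2 * π := by
    intro t
    have h1 := hturn t
    rw [hn, hn1] at h1
    push_cast at h1
    linarith
  -- bound of the speed
  obtain ⟨V, hV⟩ : ∃ V, ∀ t, v t ≤ V := by
    obtain ⟨V, hV⟩ := (isCompact_Icc (a := (0 : ℝ)) (b := T)).bddAbove_image hvc.continuousOn
    refine ⟨V, fun t => ?_⟩
    have hper : Function.Periodic v T := hvper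
    obtain ⟨s, hs, hst⟩ := hper.exists_mem_Ico₀ hT t
    rw [hst]
    exact hV ⟨s, ⟨hs.1, hs.2.le⟩, rfl⟩
  refine ⟨v, φ, k, V, ⟨hT, fun t => ?_, fun t => ?_, hφd, hknn, hkc, hvc, hvpos, hV, hφsm, hφper,
    H.x_per, H.y_per, hvper, hcvx⟩, fun t => ⟨hpv t, hqv t⟩⟩
  · rw [← hpv]; exact H.hx t
  · rw [← hqv]; exact H.hy t

/-- The two regimes, for the steering equation. -/
def Reg (p q : ℝ → ℝ) (T : ℝ) : Prop := ∃ l₀ : ℝ, 0 < l₀ ∧
    (∀ l, 0 < l → l < l₀ → ∀ θ, Steer p q l θ → ¬ Closed T θ) ∧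
    (∀ l, l₀ < l → (∃ θ η, Steer p q l θ ∧ Steer p q l η ∧ Closed T θ ∧ Closed T η ∧
      sin ((η 0 - θ 0) / 2) ≠ 0) ∧ ∃ θ, Steer p q l θ ∧ ¬ Closed T θ) ∧
    ∀ l x, ∃ θ, Steer p q l θ ∧ θ 0 = x

lemma Pre.reg' (H : Pre T x y p q p' q') : Reg p q T := by
  obtain ⟨v, φ, k, V, Htrk, hpq⟩ := H.trk
  have hiff : ∀ l θ, Sol v φ l θ ↔ Steer p q l θ := by
    intro l θ
    have : ∀ t, l * v t * sin (φ t - θ t) = l * (q t * cos (θ t) - p t * sin (θ t)) := by
      intro t
      rw [(hpq t).1, (hpq t).2, Real.sin_sub]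
      ring
    simp only [Sol, Steer, this]
  obtain ⟨l₀, h0, h1, h2⟩ := Htrk.regimes
  simp only [hiff] at h1 h2
  refine ⟨l₀, h0, h1, h2, fun l x => ?_⟩
  obtain ⟨θ, h3, h4⟩ := Htrk.exists_sol l x
  exact ⟨θ, (hiff l θ).1 h3, h4⟩

lemma Steer.neg {l : ℝ} {θ : ℝ → ℝ} (h : Steer p (fun t => -q t) l θ) :
    Steer p q l (fun t => -θ t) := by
  intro t
  refine (h t).fun_neg.congr_deriv ?_
  rw [Real.cos_neg, Real.sin_neg]
  ring

lemma Steer.neg' {l : ℝ} {θ : ℝ → ℝ} (h : Steer p q l θ) :
    Steer p (fun t => -q t) l (fun t => -θ t) := by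
  intro t
  refine (h t).fun_neg.congr_deriv ?_
  rw [Real.cos_neg, Real.sin_neg]
  ring

lemma Closed.neg {θ : ℝ → ℝ} (h : Closed T θ) : Closed T (fun t => -θ t) := by
  obtain ⟨m, hm⟩ := h
  exact ⟨-m, by simp only [hm]; push_cast; ring⟩

lemma Closed.neg' {θ : ℝ → ℝ} (h : Closed T (fun t => -θ t)) : Closed T θ := by
  have := h.neg
  simpa using this

lemma Reg.neg (h : Reg p (fun t => -q t) T) : Reg p q T := by
  obtain ⟨l₀, h0, h1, h2, h3⟩ := h
  refine ⟨l₀, h0, fun l hl hl0 θ hθ hc => ?_, fun l hl => ?_, fun l x => ?_⟩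
  · exact h1 l hl hl0 _ hθ.neg' hc.neg
  · obtain ⟨⟨θ, η, a1, a2, a3, a4, a5⟩, ζ, b1, b2⟩ := h2 l hl
    refine ⟨⟨_, _, a1.neg, a2.neg, a3.neg, a4.neg, ?_⟩, _, b1.neg, fun hc => b2 hc.neg'⟩
    rw [show (-η 0 - -θ 0) / 2 = -((η 0 - θ 0) / 2) by ring, Real.sin_neg]
    exact neg_ne_zero.2 a5
  · obtain ⟨θ, a, b⟩ := h3 l (-x)
    exact ⟨_, a.neg, by rw [b, neg_neg]⟩

/-- A smooth simple closed curve of period `T` bounding a strictly convex region. -/
structure ConvexTrack (Γ : ℝ → ℝ × ℝ) (T : ℝ) : Prop where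
  period_pos : 0 < T
  smooth : ContDiff ℝ 2 Γ
  periodic : ∀ t, Γ (t + T) = Γ t
  regular : ∀ t, deriv Γ t ≠ 0
  simple : Set.InjOn Γ (Set.Ico 0 T)
  convex : ∃ K : Set (ℝ × ℝ), IsCompact K ∧ StrictConvex ℝ K ∧ (interior K).Nonempty ∧
    frontier K = Set.range Γ

/-- Injectivity over any period. -/
lemma ConvexTrack.ne {Γ : ℝ → ℝ × ℝ} (H : ConvexTrack Γ T) {t s : ℝ} (h1 : t < s)
    (h2 : s < t + T) : Γ s ≠ Γ t := by
  intro h
  have hT := H.period_pos
  have hper : Function.Periodic Γ T := H.periodic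
  have e1 : Γ (toIcoMod hT 0 s) = Γ s := hper.sub_zsmul_eq _
  have e2 : Γ (toIcoMod hT 0 t) = Γ t := hper.sub_zsmul_eq _
  have m1 := toIcoMod_mem_Ico hT 0 s
  have m2 := toIcoMod_mem_Ico hT 0 t
  rw [zero_add] at m1 m2
  have e3 := H.simple m1 m2 (by rw [e1, e2, h])
  obtain ⟨n, hn⟩ := (toIcoMod_eq_toIcoMod hT).1 e3
  rw [zsmul_eq_mul] at hn
  have h3 : ((-n : ℤ) : ℝ) * T < 1 * T := by push_cast; linarith
  have h4 : 0 * T < ((-n : ℤ) : ℝ) * T := by push_cast; linarith
  have h5 := lt_of_mul_lt_mul_right h3 hT.le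
  have h6 := lt_of_mul_lt_mul_right h4 hT.le
  have h7 : -n < 1 := by exact_mod_cast h5
  have h8 : 0 < -n := by exact_mod_cast h6
  omega

/-- The coordinates of a continuous functional on the plane. -/
lemma clm_apply (f : ℝ × ℝ →L[ℝ] ℝ) (w : ℝ × ℝ) : f w = f (1, 0) * w.1 + f (0, 1) * w.2 := by
  have : w = w.1 • ((1, 0) : ℝ × ℝ) + w.2 • ((0, 1) : ℝ × ℝ) := by
    ext <;> simp
  conv_lhs => rw [this]
  rw [map_add, map_smul, map_smul, smul_eq_mul, smul_eq_mul]
  ring

/-- The linear functional measuring the distance to the tangent line. -/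
noncomputable def tl (Γ : ℝ → ℝ × ℝ) (t : ℝ) (w : ℝ × ℝ) : ℝ :=
  (deriv Γ t).1 * (w.2 - (Γ t).2) - (deriv Γ t).2 * (w.1 - (Γ t).1)

lemma ConvexTrack.hasDerivAt {Γ : ℝ → ℝ × ℝ} (H : ConvexTrack Γ T) (t : ℝ) :
    HasDerivAt Γ (deriv Γ t) t :=
  (H.smooth.differentiable (by norm_num) t).hasDerivAt

lemma ConvexTrack.contDiff_deriv {Γ : ℝ → ℝ × ℝ} (H : ConvexTrack Γ T) :
    ContDiff ℝ 1 (deriv Γ) := by
  have h : ContDiff ℝ (1 + 1) Γ := by
    have := H.smooth
    rwa [show (2 : WithTop ℕ∞) = 1 + 1 by norm_num] at this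
  exact (contDiff_succ_iff_deriv.1 h).2.2

/-- The tangent lines support the region, always on the same side. -/
lemma ConvexTrack.sign {Γ : ℝ → ℝ × ℝ} (H : ConvexTrack Γ T) :
    (∀ t s, t < s → s < t + T → 0 < tl Γ t (Γ s)) ∨
    (∀ t s, t < s → s < t + T → tl Γ t (Γ s) < 0) := by
  obtain ⟨K, hKc, hKs, ⟨w₀, hw₀⟩, hKf⟩ := H.convex
  have hcl : IsClosed K := hKc.isClosed
  have hmem : ∀ t, Γ t ∈ K := fun t => by
    have h1 : Γ t ∈ frontier K := by rw [hKf]; exact ⟨t, rfl⟩
    exact hcl.frontier_subset h1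
  have hnot : ∀ t, Γ t ∉ interior K := fun t => by
    have h1 : Γ t ∈ frontier K := by rw [hKf]; exact ⟨t, rfl⟩
    exact h1.2
  have hconv : Convex ℝ K := hKs.convex
  have hpos : ∀ t, 0 < (deriv Γ t).1 ^ 2 + (deriv Γ t).2 ^ 2 := by
    intro t
    by_contra hle
    push Not at hle
    apply H.regular t
    have h1 : (deriv Γ t).1 = 0 := by nlinarith [sq_nonneg (deriv Γ t).1, sq_nonneg (deriv Γ t).2]
    have h2 : (deriv Γ t).2 = 0 := by nlinarith [sq_nonneg (deriv Γ t).1, sq_nonneg (deriv Γ t).2]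
    exact Prod.ext h1 h2
  have key : ∀ t, ∀ w ∈ interior K, 0 < tl Γ t w * tl Γ t w₀ := by
    intro t
    obtain ⟨f, hf⟩ := geometric_hahn_banach_open_point hconv.interior isOpen_interior (hnot t)
    have hle : ∀ w ∈ K, f w ≤ f (Γ t) := by
      intro w hw
      have h1 : closure (interior K) = closure K :=
        hconv.closure_interior_eq_closure_of_nonempty_interior ⟨w₀, hw₀⟩
      have h2 : w ∈ closure (interior K) := by rw [h1]; exact subset_closure hw
      have h3 : closure (interior K) ⊆ {w | f w ≤ f (Γ t)} :=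
        closure_minimal (fun z hz => (hf z hz).le) (isClosed_le f.continuous continuous_const)
      exact h3 h2
    have hd : HasDerivAt (fun s => f (Γ s)) (f (deriv Γ t)) t :=
      f.hasFDerivAt.comp_hasDerivAt t (H.hasDerivAt t)
    have hmax : IsLocalMax (fun s => f (Γ s)) t :=
      Filter.Eventually.of_forall fun s => hle _ (hmem s)
    have h0 := hmax.hasDerivAt_eq_zero hd
    rw [clm_apply] at h0
    set α := f (1, 0)
    set β := f (0, 1)
    set P := (deriv Γ t).1 with hP
    set Q := (deriv Γ t).2 with hQ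
    have hid : ∀ w, (P ^ 2 + Q ^ 2) * (f w - f (Γ t)) = (β * P - α * Q) * tl Γ t w := by
      intro w
      rw [clm_apply f w, clm_apply f (Γ t)]
      simp only [tl, ← hP, ← hQ]
      linear_combination (P * (w.1 - (Γ t).1) + Q * (w.2 - (Γ t).2)) * h0
    have hneg : ∀ w ∈ interior K, (β * P - α * Q) * tl Γ t w < 0 := by
      intro w hw
      rw [← hid]
      exact mul_neg_of_pos_of_neg (hpos t) (sub_neg.2 (hf w hw))
    intro w hw
    have h1 := hneg w hw
    have h2 := hneg w₀ hw₀
    have h3 : 0 < ((β * P - α * Q) * tl Γ t w) * ((β * P - α * Q) * tl Γ t w₀) :=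
      mul_pos_of_neg_of_neg h1 h2
    have h4 : 0 < (β * P - α * Q) ^ 2 * (tl Γ t w * tl Γ t w₀) := by
      nlinarith
    exact pos_of_mul_pos_right h4 (sq_nonneg _)
  have key2 : ∀ t s, t < s → s < t + T → 0 < tl Γ t (Γ s) * tl Γ t w₀ := by
    intro t s h1 h2
    have hne : Γ s ≠ Γ t := H.ne h1 h2
    have h3 := hKs (hmem s) (hmem t) hne (a := 1 / 2) (b := 1 / 2) (by norm_num) (by norm_num)
      (by norm_num)
    have h4 := key t _ h3
    have h5 : tl Γ t ((1 / 2 : ℝ) • Γ s + (1 / 2 : ℝ) • Γ t) = 1 / 2 * tl Γ t (Γ s) := by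
      simp only [tl, Prod.fst_add, Prod.snd_add, Prod.smul_fst, Prod.smul_snd, smul_eq_mul]
      ring
    rw [h5] at h4
    linarith
  have hcont : Continuous fun t => tl Γ t w₀ := by
    have h1 := H.smooth.continuous
    have h2 := H.contDiff_deriv.continuous
    unfold tl
    fun_prop
  have hne0 : ∀ t, tl Γ t w₀ ≠ 0 := by
    intro t h
    have := key t w₀ hw₀
    rw [h] at this
    simp at this
  rcases (hne0 0).lt_or_gt with h0 | h0
  · right
    have hall : ∀ t, tl Γ t w₀ < 0 := by
      intro t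
      by_contra hle
      push Not at hle
      obtain ⟨s, -, hs⟩ := intermediate_value_uIcc (a := 0) (b := t) (f := fun t => tl Γ t w₀)
        hcont.continuousOn (show (0 : ℝ) ∈ uIcc _ _ by
          rw [mem_uIcc]; left; exact ⟨h0.le, hle⟩)
      exact hne0 s hs
    intro t s h1 h2
    have h3 := key2 t s h1 h2
    exact neg_of_mul_pos_left h3 (hall t).le
  · left
    have hall : ∀ t, 0 < tl Γ t w₀ := by
      intro t
      by_contra hle
      push Not at hle
      obtain ⟨s, -, hs⟩ := intermediate_value_uIcc (a := 0) (b := t) (f := fun t => tl Γ t w₀)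
        hcont.continuousOn (show (0 : ℝ) ∈ uIcc _ _ by
          rw [mem_uIcc]; right; exact ⟨hle, h0.le⟩)
      exact hne0 s hs
    intro t s h1 h2
    have h3 := key2 t s h1 h2
    exact pos_of_mul_pos_left h3 (hall t).le

/-- **Main theorem for convex tracks, in terms of the steering equation.** -/
theorem ConvexTrack.reg {Γ : ℝ → ℝ × ℝ} (H : ConvexTrack Γ T) :
    Reg (fun t => (deriv Γ t).1) (fun t => (deriv Γ t).2) T := by
  have hx : ∀ t, HasDerivAt (fun t => (Γ t).1) (deriv Γ t).1 t := fun t => by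
    have := hasFDerivAt_fst.comp_hasDerivAt t (H.hasDerivAt t)
    exact this
  have hy : ∀ t, HasDerivAt (fun t => (Γ t).2) (deriv Γ t).2 t := fun t => by
    have := hasFDerivAt_snd.comp_hasDerivAt t (H.hasDerivAt t)
    exact this
  have hC := H.contDiff_deriv
  have hd2 : ∀ t, HasDerivAt (deriv Γ) (deriv (deriv Γ) t) t := fun t =>
    (hC.differentiable (by norm_num) t).hasDerivAt
  have hc2 : Continuous (deriv (deriv Γ)) := hC.continuous_deriv le_rfl
  have hp : ∀ t, HasDerivAt (fun t => (deriv Γ t).1) (deriv (deriv Γ) t).1 t := fun t => by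
    have := hasFDerivAt_fst.comp_hasDerivAt t (hd2 t)
    exact this
  have hq : ∀ t, HasDerivAt (fun t => (deriv Γ t).2) (deriv (deriv Γ) t).2 t := fun t => by
    have := hasFDerivAt_snd.comp_hasDerivAt t (hd2 t)
    exact this
  have hreg : ∀ t, (deriv Γ t).1 ≠ 0 ∨ (deriv Γ t).2 ≠ 0 := by
    intro t
    by_contra hcon
    push Not at hcon
    exact H.regular t (Prod.ext hcon.1 hcon.2)
  rcases H.sign with hs | hs
  · have hpre : Pre T (fun t => (Γ t).1) (fun t => (Γ t).2) (fun t => (deriv Γ t).1)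
        (fun t => (deriv Γ t).2) (fun t => (deriv (deriv Γ) t).1)
        (fun t => (deriv (deriv Γ) t).2) :=
      { T_pos := H.period_pos
        hx := hx
        hy := hy
        hp := hp
        hq := hq
        p'_cont := by fun_prop
        q'_cont := by fun_prop
        reg := hreg
        x_per := fun t => by rw [H.periodic]
        y_per := fun t => by rw [H.periodic]
        cvx := fun t s h1 h2 => hs t s h1 h2 }
    exact hpre.reg'
  · have hpre : Pre T (fun t => (Γ t).1) (fun t => -(Γ t).2) (fun t => (deriv Γ t).1)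
        (fun t => -(deriv Γ t).2) (fun t => (deriv (deriv Γ) t).1)
        (fun t => -(deriv (deriv Γ) t).2) :=
      { T_pos := H.period_pos
        hx := hx
        hy := fun t => (hy t).fun_neg
        hp := hp
        hq := fun t => (hq t).fun_neg
        p'_cont := by fun_prop
        q'_cont := by fun_prop
        reg := fun t => by
          rcases hreg t with h | h
          · exact Or.inl h
          · exact Or.inr (neg_ne_zero.2 h)
        x_per := fun t => by rw [H.periodic]
        y_per := fun t => by rw [H.periodic]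
        cvx := fun t s h1 h2 => by
          have := hs t s h1 h2
          unfold tl at this
          linarith }
    exact hpre.reg'.neg

end Pool.Agent.L0h97.Bike
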